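import Pool.Agent.Helper66.PLR.Rank

open Ordinal

namespace Pool.Agent.Helper66.PLR

variable {T : Set (Ordinal.{0} × (Ordinal.{0} → Ordinal.{0}))} {h : Ordinal.{0} → Ordinal.{0}}

lemma isSuccLimit_iSup {ι : Type*} [Nonempty ι] (L : ι → Ordinal.{0})
    (hb : BddAbove (Set.range L)) (h : ∀ i, L i < ⨆ i, L i) : Order.IsSuccLimit (⨆ i, L i) := by
  refine ⟨?_, ?_⟩
  · intro hmin
    obtain ⟨i⟩ := ‹Nonempty ι›
    exact absurd (hmin (h i).le) (not_le.2 (h i))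
  · intro b hcov
    obtain ⟨i, hi⟩ := (lt_ciSup_iff hb).1 hcov.lt
    exact hcov.2 hi (h i)

lemma miller_succ : ∀ p ∈ T, Splits T p.1 p.2 → ∃ γ, (p.1 + 1, Function.update p.2 p.1 γ) ∈ T := by
  intro p _ hs
  obtain ⟨γ, _, _, h⟩ := hs 0 (Ordinal.omega_pos 1)
  exact ⟨γ, h⟩

lemma ext_update {a γ : Ordinal.{0}} {u : Ordinal.{0} → Ordinal.{0}} :
    Ext (a, u) (a + 1, Function.update u a γ) := by
  refine ⟨(Order.lt_add_one_iff.2 le_rfl).le, fun β hβ => ?_⟩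
  change Function.update u a γ β = _
  rw [Function.update_of_ne (ne_of_lt hβ)]

lemma step (hh : IsPt h) (hT : IsMiller h T) {ρ : Ordinal.{0}} (hρ : ρ < ω₁) {a b : Ordinal.{0}}
    {u v : Ordinal.{0} → Ordinal.{0}} (hb : (b, v) ∈ T) (hsa : Splits T a u) (hsb : Splits T b v) :
    ∃ p ∈ T, ∃ q ∈ T, Splits T p.1 p.2 ∧ Splits T q.1 q.2 ∧ a < p.1 ∧ b < p.1 ∧ p.1 < q.1 ∧
      Ext (a, u) p ∧ Ext (b, v) q ∧ b ≤ p.2 a ∧ p.1 ≤ q.2 b ∧ p.2 a < p.1 ∧ ρ ≤ p.2 a ∧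
      ∀ β ≤ b, h β < p.1 := by
  have hb1 : b < ω₁ := (hT.tree.node _ hb).1
  obtain ⟨ξ, hξ, hξ1, hξT⟩ := hsa (max b ρ) (max_lt hb1 hρ)
  obtain ⟨μ, hμ, hμ2⟩ := exists_bound (hT.tree.node _ hξT).1 (Function.update u a ξ)
    (hT.tree.node _ hξT).2.1
  obtain ⟨σ, hσ, hσ2⟩ := exists_bound (add_one_lt_omega_one hb1) h
    (fun β hβ => hh.1 β (hβ.trans (add_one_lt_omega_one hb1)))
  obtain ⟨p, hp, hp1, hp2, hp3⟩ := ext_split hT.tree hT.dense miller_succ hξT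
    (max_lt hb1 (max_lt hμ hσ))
  obtain ⟨ζ, hζ, hζ1, hζT⟩ := hsb p.1 (hT.tree.node p hp).1
  obtain ⟨q, hq, hq1, hq2, hq3⟩ := ext_split hT.tree hT.dense miller_succ hζT
    (hT.tree.node p hp).1
  have hpa : ∀ β ≤ a, p.2 β = Function.update u a ξ β :=
    fun β hβ => hp1.2 β (Order.lt_add_one_iff.2 hβ)
  have hqb : ∀ β ≤ b, q.2 β = Function.update v b ζ β :=
    fun β hβ => hq1.2 β (Order.lt_add_one_iff.2 hβ)
  have hmp : max μ σ < p.1 := (le_max_right _ _).trans_lt hp2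
  refine ⟨p, hp, q, hq, hp3, hq3, Order.add_one_le_iff.1 hp1.1, (le_max_left _ _).trans_lt hp2,
    hq2, ext_update.trans hp1, ext_update.trans hq1, ?_, ?_, ?_, ?_, ?_⟩
  · rw [hpa a le_rfl, Function.update_self]; exact (le_max_left _ _).trans hξ
  · rw [hqb b le_rfl, Function.update_self]; exact hζ
  · rw [hpa a le_rfl]
    exact (hμ2 a (Order.lt_add_one_iff.2 le_rfl)).trans ((le_max_left _ _).trans_lt hmp)
  · rw [hpa a le_rfl, Function.update_self]; exact (le_max_right _ _).trans hξ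
  · intro β hβ
    exact (hσ2 β (Order.lt_add_one_iff.2 hβ)).trans ((le_max_right _ _).trans_lt hmp)

/-- cofinally many initial segments of `(δ, u)` are `ω₁`-splitting -/
def LimS (T : Set (Ordinal.{0} × (Ordinal.{0} → Ordinal.{0}))) (δ : Ordinal.{0})
    (u : Ordinal.{0} → Ordinal.{0}) : Prop :=
  ∀ β < δ, ∃ γ, β ≤ γ ∧ γ < δ ∧ Splits T γ (cut u γ)

lemma block (hh : IsPt h) (hT : IsMiller h T) {ρ : Ordinal.{0}} (hρ : ρ < ω₁)
    {a₀ b₀ : Ordinal.{0}} {u v : Ordinal.{0} → Ordinal.{0}}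
    (hu : (a₀, u) ∈ T) (hv : (b₀, v) ∈ T) (hsu : Splits T a₀ u) (hsv : Splits T b₀ v) :
    ∃ δ' u' v', max a₀ b₀ < δ' ∧ Order.IsSuccLimit δ' ∧ (δ', u') ∈ T ∧ (δ', v') ∈ T ∧
      LimS T δ' u' ∧ LimS T δ' v' ∧ (∀ β < δ', h β < δ') ∧
      Ext (a₀, u) (δ', u') ∧ Ext (b₀, v) (δ', v') ∧
      (∀ γ, max a₀ b₀ < γ → γ < δ' → ∃ β < γ, γ ≤ u' β ∨ γ ≤ v' β) ∧
      ρ ≤ u' a₀ ∧ u' a₀ < v' b₀ := by
  classical
  let St := {s : (Ordinal.{0} × (Ordinal.{0} → Ordinal.{0})) ×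
    (Ordinal.{0} × (Ordinal.{0} → Ordinal.{0})) //
    s.1 ∈ T ∧ s.2 ∈ T ∧ Splits T s.1.1 s.1.2 ∧ Splits T s.2.1 s.2.2}
  have hstep : ∀ s : St, ∃ t : St, s.1.1.1 < t.1.1.1 ∧ s.1.2.1 < t.1.1.1 ∧ t.1.1.1 < t.1.2.1 ∧
      Ext s.1.1 t.1.1 ∧ Ext s.1.2 t.1.2 ∧ s.1.2.1 ≤ t.1.1.2 s.1.1.1 ∧
      t.1.1.1 ≤ t.1.2.2 s.1.2.1 ∧ t.1.1.2 s.1.1.1 < t.1.1.1 ∧ ρ ≤ t.1.1.2 s.1.1.1 ∧
      ∀ β ≤ s.1.2.1, h β < t.1.1.1 := by
    rintro ⟨⟨⟨a, x⟩, ⟨b, y⟩⟩, h1, h2, h3, h4⟩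
    obtain ⟨p, hp, q, hq, k1, k2, k3⟩ := step hh hT hρ h2 h3 h4
    exact ⟨⟨(p, q), hp, hq, k1, k2⟩, k3⟩
  choose g hg using hstep
  let f : ℕ → St := fun n => g^[n] ⟨((a₀, u), (b₀, v)), hu, hv, hsu, hsv⟩
  have hfs : ∀ n, f (n + 1) = g (f n) := fun n => Function.iterate_succ_apply' g n _
  set a : ℕ → Ordinal.{0} := fun n => (f n).1.1.1 with ha
  set b : ℕ → Ordinal.{0} := fun n => (f n).1.2.1 with hb
  set U : ℕ → Ordinal.{0} → Ordinal.{0} := fun n => (f n).1.1.2 with hU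
  set V : ℕ → Ordinal.{0} → Ordinal.{0} := fun n => (f n).1.2.2 with hV
  have hn : ∀ n, a n < a (n + 1) ∧ b n < a (n + 1) ∧ a (n + 1) < b (n + 1) ∧
      Ext (a n, U n) (a (n + 1), U (n + 1)) ∧ Ext (b n, V n) (b (n + 1), V (n + 1)) ∧
      b n ≤ U (n + 1) (a n) ∧ a (n + 1) ≤ V (n + 1) (b n) ∧
      U (n + 1) (a n) < a (n + 1) ∧ ρ ≤ U (n + 1) (a n) ∧ ∀ β ≤ b n, h β < a (n + 1) := by
    intro n
    have := hg (f n)
    rw [← hfs n] at this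
    exact this
  have has : ∀ n, a n < a (n + 1) := fun n => (hn n).1
  have hbs : ∀ n, b n < b (n + 1) := fun n => (hn n).2.1.trans (hn n).2.2.1
  have haE : ∀ i j, i ≤ j → Ext (a i, U i) (a j, U j) := by
    intro i j hij
    induction j, hij using Nat.le_induction with
    | base => exact Ext.refl _
    | succ j _ ih => exact ih.trans (hn j).2.2.2.1
  have hbE : ∀ i j, i ≤ j → Ext (b i, V i) (b j, V j) := by
    intro i j hij
    induction j, hij using Nat.le_induction with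
    | base => exact Ext.refl _
    | succ j _ ih => exact ih.trans (hn j).2.2.2.2.1
  have ha1 : ∀ n, a n < ω₁ := fun n => (hT.tree.node _ (f n).2.1).1
  have hb1 : ∀ n, b n < ω₁ := fun n => (hT.tree.node _ (f n).2.2.1).1
  have hba : BddAbove (Set.range a) := ⟨ω₁, by rintro _ ⟨i, rfl⟩; exact (ha1 i).le⟩
  have hbb : BddAbove (Set.range b) := ⟨ω₁, by rintro _ ⟨i, rfl⟩; exact (hb1 i).le⟩
  have hsup : (⨆ n, b n) = ⨆ n, a n := by
    apply le_antisymm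
    · exact ciSup_le' (fun n => (hn n).2.1.le.trans (le_ciSup hba (n + 1)))
    · exact ciSup_le' (fun n => ((has n).trans (hn n).2.2.1).le.trans (le_ciSup hbb (n + 1)))
  have hcoh : ∀ (L : ℕ → Ordinal.{0}) (W : ℕ → Ordinal.{0} → Ordinal.{0}),
      (∀ i j, i ≤ j → Ext (L i, W i) (L j, W j)) →
      ∀ i j, L i ≤ L j → ∀ β < L i, W j β = W i β := by
    intro L W hE i j hij β hβ
    rcases le_total i j with h | h
    · exact (hE i j h).2 β hβ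
    · exact ((hE j i h).2 β (hβ.trans_le hij)).symm
  obtain ⟨u', hu', hu2⟩ := union_TB hT.tree a U (fun n => tb_of_mem hT.tree (f n).2.1)
    (hcoh a U haE)
  obtain ⟨v', hv', hv2⟩ := union_TB hT.tree b V (fun n => tb_of_mem hT.tree (f n).2.2.1)
    (hcoh b V hbE)
  rw [hsup] at hv'
  have hδ1 : (⨆ n, a n) < ω₁ := Ordinal.iSup_lt_omega_one ha1
  have halt : ∀ n, a n < ⨆ n, a n := fun n => (has n).trans_le (le_ciSup hba (n + 1))
  have hblt : ∀ n, b n < ⨆ n, a n := fun n => (hn n).2.1.trans_le (le_ciSup hba (n + 1))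
  have hlim : Order.IsSuccLimit (⨆ n, a n) := isSuccLimit_iSup a hba halt
  refine ⟨⨆ n, a n, u', v', max_lt (halt 0) (hblt 0), hlim, hu'.mem hδ1, hv'.mem hδ1,
    ?_, ?_, ?_, ?_, ?_, ?_, ?_, ?_⟩
  · intro β hβ
    obtain ⟨n, hβn⟩ := (lt_ciSup_iff hba).1 hβ
    refine ⟨a n, hβn.le, halt n, ?_⟩
    have : cut u' (a n) = U n := by
      rw [cut_congr (t := U n) (hu2 n)]
      exact cut_self (hT.tree.node _ (f n).2.1).2.2
    rw [this]
    exact (f n).2.2.2.1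
  · intro β hβ
    rw [← hsup] at hβ
    obtain ⟨n, hβn⟩ := (lt_ciSup_iff hbb).1 hβ
    refine ⟨b n, hβn.le, hblt n, ?_⟩
    have : cut v' (b n) = V n := by
      rw [cut_congr (t := V n) (hv2 n)]
      exact cut_self (hT.tree.node _ (f n).2.2.1).2.2
    rw [this]
    exact (f n).2.2.2.2
  · intro β hβ
    rw [← hsup] at hβ
    obtain ⟨n, hβn⟩ := (lt_ciSup_iff hbb).1 hβ
    exact ((hn n).2.2.2.2.2.2.2.2.2 β hβn.le).trans (halt (n + 1))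
  · exact ⟨(halt 0).le, fun β hβ => hu2 0 β hβ⟩
  · exact ⟨(hblt 0).le, fun β hβ => hv2 0 β hβ⟩
  · intro γ hγ hγ2
    have hex : ∃ n, γ ≤ a (n + 1) := by
      obtain ⟨n, hn'⟩ := (lt_ciSup_iff hba).1 hγ2
      exact ⟨n, hn'.le.trans (has n).le⟩
    have hm1 : γ ≤ a (Nat.find hex + 1) := Nat.find_spec hex
    by_cases hγb : b (Nat.find hex) < γ
    · refine ⟨b (Nat.find hex), hγb, Or.inr ?_⟩
      rw [hv2 (Nat.find hex + 1) (b (Nat.find hex)) (hbs _)]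
      exact hm1.trans (hn _).2.2.2.2.2.2.1
    · rw [not_lt] at hγb
      have hm2 : a (Nat.find hex) < γ := by
        rcases Nat.eq_zero_or_pos (Nat.find hex) with h0 | h0
        · rw [h0]; exact (le_max_left _ _).trans_lt hγ
        · have := Nat.find_min hex (Nat.sub_lt h0 one_pos)
          have e : Nat.find hex - 1 + 1 = Nat.find hex := by omega
          rw [e, not_le] at this
          exact this
      refine ⟨a (Nat.find hex), hm2, Or.inl ?_⟩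
      rw [hu2 (Nat.find hex + 1) (a (Nat.find hex)) (has _)]
      exact hγb.trans (hn _).2.2.2.2.2.1
  · change ρ ≤ u' (a 0)
    rw [hu2 1 (a 0) (has 0)]
    exact (hn 0).2.2.2.2.2.2.2.2.1
  · change u' (a 0) < v' (b 0)
    rw [hu2 1 (a 0) (has 0), hv2 1 (b 0) (hbs 0)]
    exact (hn 0).2.2.2.2.2.2.2.1.trans_le (hn 0).2.2.2.2.2.2.1

/-- `κ` is the first place `≥ γ` at which `x` takes a value `≥ h γ`. -/
def Rd (h : Ordinal.{0} → Ordinal.{0}) (x : Ordinal.{0} → Ordinal.{0}) (γ κ : Ordinal.{0}) : Prop :=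
  γ ≤ κ ∧ h γ ≤ x κ ∧ ∀ β, γ ≤ β → β < κ → x β < h γ

lemma rd_unique {x : Ordinal.{0} → Ordinal.{0}} {γ κ κ' : Ordinal.{0}} (h1 : Rd h x γ κ)
    (h2 : Rd h x γ κ') : κ = κ' := by
  rcases lt_trichotomy κ κ' with h' | h' | h'
  · exact absurd (h2.2.2 κ h1.1 h') (not_lt.2 h1.2.1)
  · exact h'
  · exact absurd (h1.2.2 κ' h2.1 h') (not_lt.2 h2.2.1)

lemma rd_congr {x x' : Ordinal.{0} → Ordinal.{0}} {γ κ : Ordinal.{0}}
    (hx : ∀ β ≤ κ, x β = x' β) (h1 : Rd h x γ κ) : Rd h x' γ κ := by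
  refine ⟨h1.1, ?_, fun β h2 h3 => ?_⟩
  · rw [← hx κ le_rfl]; exact h1.2.1
  · rw [← hx β h3.le]; exact h1.2.2 β h2 h3

/-- the common closure points of `x`, `y` and `h` above `δ₀` -/
def Cl (h : Ordinal.{0} → Ordinal.{0}) (δ₀ : Ordinal.{0}) (x y : Ordinal.{0} → Ordinal.{0})
    (γ : Ordinal.{0}) : Prop :=
  δ₀ < γ ∧ γ < ω₁ ∧ ∀ β < γ, x β < γ ∧ y β < γ ∧ h β < γ

lemma cl_congr {δ₀ γ : Ordinal.{0}} {x y x' y' : Ordinal.{0} → Ordinal.{0}}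
    (hx : ∀ β < γ, x β = x' β) (hy : ∀ β < γ, y β = y' β) :
    Cl h δ₀ x y γ ↔ Cl h δ₀ x' y' γ := by
  unfold Cl
  constructor
  · rintro ⟨h1, h2, h3⟩
    exact ⟨h1, h2, fun β hβ => by rw [← hx β hβ, ← hy β hβ]; exact h3 β hβ⟩
  · rintro ⟨h1, h2, h3⟩
    exact ⟨h1, h2, fun β hβ => by rw [hx β hβ, hy β hβ]; exact h3 β hβ⟩

/-- The bit at `γ` is right, with witnesses below `δ`. -/
def Bit (h : Ordinal.{0} → Ordinal.{0}) (A : Ordinal.{0} → Prop) (δ₀ : Ordinal.{0})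
    (x y : Ordinal.{0} → Ordinal.{0}) (δ γ : Ordinal.{0}) : Prop :=
  Cl h δ₀ x y γ → ∃ κ < δ, ∃ κ' < δ, Rd h x γ κ ∧ Rd h y γ κ' ∧
    (x κ < y κ' ↔ A (rk (Cl h δ₀ x y) γ))

lemma bit_congr {A : Ordinal.{0} → Prop} {δ₀ δ δ' γ : Ordinal.{0}}
    {x y x' y' : Ordinal.{0} → Ordinal.{0}} (hδ : δ ≤ δ') (hγ : γ < δ)
    (hx : ∀ β < δ, x β = x' β) (hy : ∀ β < δ, y β = y' β) (hb : Bit h A δ₀ x y δ γ) :
    Bit h A δ₀ x' y' δ' γ := by
  intro hc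
  have hc' := (cl_congr (fun β hβ => hx β (hβ.trans hγ)) (fun β hβ => hy β (hβ.trans hγ))).2 hc
  obtain ⟨κ, hκ, κ', hκ', h1, h2, h3⟩ := hb hc'
  refine ⟨κ, hκ.trans_le hδ, κ', hκ'.trans_le hδ, rd_congr (fun β hβ => hx β (hβ.trans_lt hκ)) h1,
    rd_congr (fun β hβ => hy β (hβ.trans_lt hκ')) h2, ?_⟩
  rw [← hx κ hκ, ← hy κ' hκ', h3, rk_congr (C' := Cl h δ₀ x' y')]
  intro b hb
  exact cl_congr (fun β hβ => hx β ((hβ.trans hb).trans hγ))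
    (fun β hβ => hy β ((hβ.trans hb).trans hγ))

/-- good partial pairs -/
structure Good (h : Ordinal.{0} → Ordinal.{0})
    (T : Set (Ordinal.{0} × (Ordinal.{0} → Ordinal.{0}))) (A : Ordinal.{0} → Prop)
    (δ₀ : Ordinal.{0}) (δ : Ordinal.{0}) (u v : Ordinal.{0} → Ordinal.{0}) : Prop where
  tu : TB T δ u
  tv : TB T δ v
  le : δ₀ ≤ δ
  ready : (δ = δ₀ ∧ Splits T δ u ∧ Splits T δ v) ∨
    (Order.IsSuccLimit δ ∧ (∀ β < δ, h β < δ) ∧ LimS T δ u ∧ LimS T δ v)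
  bit : ∀ γ < δ, Bit h A δ₀ u v δ γ

lemma start (hT : IsMiller h T) {δ : Ordinal.{0}} {u : Ordinal.{0} → Ordinal.{0}}
    (hu : (δ, u) ∈ T) (hlim : Order.IsSuccLimit δ) (hcl : ∀ β < δ, h β < δ) (hL : LimS T δ u) :
    ∃ a u1, (a, u1) ∈ T ∧ Splits T a u1 ∧ Ext (δ, u) (a, u1) ∧ a < h δ ∧
      ∀ β, δ ≤ β → β < a → u1 β < h δ := by
  obtain ⟨q, hq, h1, h2, h3, h4, h5⟩ := hT.delay δ u hu hlim hcl hL
  refine ⟨q.1, q.2, hq, h4, ⟨h1, fun β hβ => ?_⟩, h2, h5⟩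
  change q.2 β = u β
  rw [← h3, cut_lt hβ]

lemma good_ext (hh : IsPt h) (hT : IsMiller h T) {A : Ordinal.{0} → Prop} {δ₀ δ : Ordinal.{0}}
    {u v : Ordinal.{0} → Ordinal.{0}} (hG : Good h T A δ₀ δ u v) (hδ1 : δ < ω₁) :
    ∃ δ' u' v', δ < δ' ∧ (∀ β < δ, u' β = u β ∧ v' β = v β) ∧ Good h T A δ₀ δ' u' v' := by
  -- the general step from splitting nodes
  have key : ∀ (a b : Ordinal.{0}) (u1 v1 : Ordinal.{0} → Ordinal.{0}), (a, u1) ∈ T →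
      (b, v1) ∈ T → Splits T a u1 → Splits T b v1 → Ext (δ, u) (a, u1) → Ext (δ, v) (b, v1) →
      ∀ P : Prop, ∃ δ' u' v', max a b < δ' ∧ Order.IsSuccLimit δ' ∧ (δ', u') ∈ T ∧
      (δ', v') ∈ T ∧ LimS T δ' u' ∧ LimS T δ' v' ∧ (∀ β < δ', h β < δ') ∧
      Ext (a, u1) (δ', u') ∧ Ext (b, v1) (δ', v') ∧
      (∀ γ, max a b < γ → γ < δ' → ∃ β < γ, γ ≤ u' β ∨ γ ≤ v' β) ∧
      h δ ≤ u' a ∧ h δ ≤ v' b ∧ (u' a < v' b ↔ P) := by
    intro a b u1 v1 hu1 hv1 hsu hsv _ _ P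
    by_cases hP : P
    · obtain ⟨δ', u', v', h1, h2, h3, h4, h5, h6, h7, h8, h9, h10, h11, h12⟩ :=
        block hh hT (hh.1 δ hδ1) hu1 hv1 hsu hsv
      exact ⟨δ', u', v', h1, h2, h3, h4, h5, h6, h7, h8, h9, h10, h11, h11.trans h12.le,
        iff_of_true h12 hP⟩
    · obtain ⟨δ', v', u', h1, h2, h3, h4, h5, h6, h7, h8, h9, h10, h11, h12⟩ :=
        block hh hT (hh.1 δ hδ1) hv1 hu1 hsv hsu
      rw [max_comm] at h1
      refine ⟨δ', u', v', h1, h2, h4, h3, h6, h5, h7, h9, h8, ?_, h11.trans h12.le, h11,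
        iff_of_false (not_lt.2 h12.le) hP⟩
      intro γ hγ hγ'
      rw [max_comm] at hγ
      obtain ⟨β, hβ, h'⟩ := h10 γ hγ hγ'
      exact ⟨β, hβ, h'.symm⟩
  have hum := hG.tu.mem hδ1
  have hvm := hG.tv.mem hδ1
  obtain ⟨a, b, u1, v1, hu1, hv1, hsu, hsv, heu, hev, hcase⟩ : ∃ a b u1 v1, (a, u1) ∈ T ∧
      (b, v1) ∈ T ∧ Splits T a u1 ∧ Splits T b v1 ∧ Ext (δ, u) (a, u1) ∧ Ext (δ, v) (b, v1) ∧
      ((δ = δ₀ ∧ a = δ ∧ b = δ) ∨ (a < h δ ∧ b < h δ ∧ (∀ β, δ ≤ β → β < a → u1 β < h δ) ∧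
        ∀ β, δ ≤ β → β < b → v1 β < h δ)) := by
    rcases hG.ready with ⟨h1, h2, h3⟩ | ⟨h1, h2, h3, h4⟩
    · exact ⟨δ, δ, u, v, hum, hvm, h2, h3, Ext.refl _, Ext.refl _, Or.inl ⟨h1, rfl, rfl⟩⟩
    · obtain ⟨a, u1, k1, k2, k3, k4, k5⟩ := start hT hum h1 h2 h3
      obtain ⟨b, v1, l1, l2, l3, l4, l5⟩ := start hT hvm h1 h2 h4
      exact ⟨a, b, u1, v1, k1, l1, k2, l2, k3, l3, Or.inr ⟨k4, l4, k5, l5⟩⟩
  obtain ⟨δ', u', v', h1, h2, h3, h4, h5, h6, h7, h8, h9, h10, h11, h12, h13⟩ :=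
    key a b u1 v1 hu1 hv1 hsu hsv heu hev (A (rk (Cl h δ₀ u v) δ))
  have ha : δ ≤ a := heu.1
  have hb : δ ≤ b := hev.1
  have haδ : a < δ' := (le_max_left _ _).trans_lt h1
  have hbδ : b < δ' := (le_max_right _ _).trans_lt h1
  have hEu : ∀ β < δ, u' β = u β := (heu.trans h8).2
  have hEv : ∀ β < δ, v' β = v β := (hev.trans h9).2
  refine ⟨δ', u', v', ha.trans_lt haδ, fun β hβ => ⟨hEu β hβ, hEv β hβ⟩,
    ⟨tb_of_mem hT.tree h3, tb_of_mem hT.tree h4, hG.le.trans (ha.trans haδ.le),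
    Or.inr ⟨h2, h7, h5, h6⟩, ?_⟩⟩
  intro γ hγ
  rcases lt_trichotomy γ δ with hc | hc | hc
  · exact bit_congr (ha.trans haδ.le) hc (fun β hβ => (hEu β hβ).symm)
      (fun β hβ => (hEv β hβ).symm) (hG.bit γ hc)
  · subst hc
    intro hcl
    rcases hcase with ⟨e, _, _⟩ | ⟨k1, k2, k3, k4⟩
    · rw [e] at hcl; exact absurd hcl.1 (lt_irrefl _)
    · refine ⟨a, haδ, b, hbδ, ⟨ha, h11, fun β hβ hβa => ?_⟩, ⟨hb, h12, fun β hβ hβb => ?_⟩, ?_⟩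
      · have e : u' β = u1 β := h8.2 β hβa
        rw [e]; exact k3 β hβ hβa
      · have e : v' β = v1 β := h9.2 β hβb
        rw [e]; exact k4 β hβ hβb
      · rw [h13, rk_congr (C' := Cl h δ₀ u' v')]
        intro b hb
        exact cl_congr (fun β hβ => (hEu β (hβ.trans hb)).symm)
          (fun β hβ => (hEv β (hβ.trans hb)).symm)
  · intro hcl
    exfalso
    by_cases hm : max a b < γ
    · obtain ⟨β, hβ, h'⟩ := h10 γ hm hγ
      have := hcl.2.2 β hβ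
      rcases h' with h' | h'
      · exact absurd this.1 (not_lt.2 h')
      · exact absurd this.2.1 (not_lt.2 h')
    · rw [not_lt] at hm
      rcases hcase with ⟨_, e1, e2⟩ | ⟨k1, k2, _, _⟩
      · rw [e1, e2, max_self] at hm
        exact absurd (hc.trans_le hm) (lt_irrefl _)
      · have := (hcl.2.2 δ hc).2.2
        exact absurd ((max_lt k1 k2).trans this) (not_lt.2 hm)

/-- The coding: every subset `A` of `ω₁` is coded by two branches of the Miller tree `T`. -/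
theorem exists_pair (hh : IsPt h) (hT : IsMiller h T) (A : Ordinal.{0} → Prop) :
    ∃ δ₀ < ω₁, ∃ x ∈ branches T, ∃ y ∈ branches T, ∀ γ < ω₁, Bit h A δ₀ x y ω₁ γ := by
  classical
  obtain ⟨p0, hp0⟩ := hT.tree.nonempty
  obtain ⟨p, hp, _, _, hps⟩ := hT.dense p0 hp0
  let S := {q : Ordinal.{0} × (Ordinal.{0} → Ordinal.{0}) × (Ordinal.{0} → Ordinal.{0}) //
    Good h T A p.1 q.1 q.2.1 q.2.2}
  let r : S → S → Prop := fun a b => a.1.1 ≤ b.1.1 ∧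
    ∀ β < a.1.1, b.1.2.1 β = a.1.2.1 β ∧ b.1.2.2 β = a.1.2.2 β
  obtain ⟨m, hm⟩ := exists_maximal_of_chains_bounded (r := r)
    (by
      intro c hc
      by_cases hmax : ∃ m ∈ c, ∀ a ∈ c, a.1.1 ≤ m.1.1
      · obtain ⟨m, hm, hm2⟩ := hmax
        refine ⟨m, fun a ha => ?_⟩
        by_cases he : a = m
        · rw [he]; exact ⟨le_rfl, fun _ _ => ⟨rfl, rfl⟩⟩
        · rcases hc ha hm he with h' | h'
          · exact h'
          · refine ⟨hm2 a ha, fun β hβ => ?_⟩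
            have := h'.2 β (hβ.trans_le (hm2 a ha))
            exact ⟨this.1.symm, this.2.symm⟩
      by_cases hne : c.Nonempty
      · have : Nonempty c := hne.to_subtype
        push Not at hmax
        have hch : ∀ i j : c, i.1.1.1 ≤ j.1.1.1 → ∀ β < i.1.1.1,
            j.1.1.2.1 β = i.1.1.2.1 β ∧ j.1.1.2.2 β = i.1.1.2.2 β := by
          intro i j hij β hβ
          by_cases he : i = j
          · rw [he]; exact ⟨rfl, rfl⟩
          · rcases hc i.2 j.2 (fun h => he (Subtype.ext h)) with h' | h'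
            · exact h'.2 β hβ
            · have := h'.2 β (hβ.trans_le hij)
              exact ⟨this.1.symm, this.2.symm⟩
        obtain ⟨u, hu, hu2⟩ := union_TB hT.tree (fun i : c => i.1.1.1) (fun i : c => i.1.1.2.1)
          (fun i => i.1.2.tu) (fun i j h' β hβ => (hch i j h' β hβ).1)
        obtain ⟨v, hv, hv2⟩ := union_TB hT.tree (fun i : c => i.1.1.1) (fun i : c => i.1.1.2.2)
          (fun i => i.1.2.tv) (fun i j h' β hβ => (hch i j h' β hβ).2)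
        have hb : BddAbove (Set.range (fun i : c => i.1.1.1)) :=
          ⟨ω₁, by rintro _ ⟨i, rfl⟩; exact i.1.2.tu.1⟩
        have hnext : ∀ i : c, ∃ j : c, i.1.1.1 < j.1.1.1 := by
          intro i
          obtain ⟨a, ha, h'⟩ := hmax i.1 i.2
          exact ⟨⟨a, ha⟩, h'⟩
        have hilt : ∀ i : c, i.1.1.1 < ⨆ i : c, i.1.1.1 := fun i => by
          obtain ⟨j, hj⟩ := hnext i
          exact hj.trans_le (le_ciSup hb j)
        have hbig : ∀ β < ⨆ i : c, i.1.1.1, ∃ j : c, β < j.1.1.1 ∧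
            ((∀ β < j.1.1.1, h β < j.1.1.1) ∧ LimS T j.1.1.1 j.1.1.2.1 ∧
              LimS T j.1.1.1 j.1.1.2.2) := by
          intro β hβ
          obtain ⟨i, hi⟩ := (lt_ciSup_iff hb).1 hβ
          obtain ⟨j, hj⟩ := hnext i
          refine ⟨j, hi.trans hj, ?_⟩
          rcases j.1.2.ready with ⟨e, _⟩ | ⟨_, h2, h3, h4⟩
          · exact absurd (i.1.2.le.trans_lt hj) (by rw [e]; exact lt_irrefl _)
          · exact ⟨h2, h3, h4⟩
        refine ⟨⟨(⨆ i : c, i.1.1.1, u, v), ⟨hu, hv, ?_, Or.inr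
          ⟨isSuccLimit_iSup _ hb hilt, ?_, ?_, ?_⟩, ?_⟩⟩, ?_⟩
        · obtain ⟨i0⟩ := this
          exact i0.1.2.le.trans (le_ciSup hb i0)
        · intro β hβ
          obtain ⟨j, hj, h1, _, _⟩ := hbig β hβ
          exact (h1 β hj).trans (hilt j)
        · intro β hβ
          obtain ⟨j, hj, _, h1, _⟩ := hbig β hβ
          obtain ⟨γ, h2, h3, h4⟩ := h1 β hj
          refine ⟨γ, h2, h3.trans (hilt j), ?_⟩
          change Splits T γ (cut u γ)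
          rw [cut_congr (t := j.1.1.2.1) (fun ζ hζ => hu2 j ζ (hζ.trans h3))]
          exact h4
        · intro β hβ
          obtain ⟨j, hj, _, _, h1⟩ := hbig β hβ
          obtain ⟨γ, h2, h3, h4⟩ := h1 β hj
          refine ⟨γ, h2, h3.trans (hilt j), ?_⟩
          change Splits T γ (cut v γ)
          rw [cut_congr (t := j.1.1.2.2) (fun ζ hζ => hv2 j ζ (hζ.trans h3))]
          exact h4
        · intro γ hγ
          obtain ⟨i, hi⟩ := (lt_ciSup_iff hb).1 hγ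
          exact bit_congr (le_ciSup hb i) hi (fun β hβ => (hu2 i β hβ).symm)
            (fun β hβ => (hv2 i β hβ).symm) (i.1.2.bit γ hi)
        · intro a ha
          exact ⟨le_ciSup hb ⟨a, ha⟩, fun β hβ => ⟨hu2 ⟨a, ha⟩ β hβ, hv2 ⟨a, ha⟩ β hβ⟩⟩
      · refine ⟨⟨(p.1, p.2, p.2), ⟨tb_of_mem hT.tree hp, tb_of_mem hT.tree hp, le_rfl,
          Or.inl ⟨rfl, hps, hps⟩, ?_⟩⟩, fun a ha => absurd ⟨a, ha⟩ hne⟩
        intro γ hγ hc
        exact absurd hc.1 (not_lt.2 (le_of_lt hγ)))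
    (fun {a b c} h h' => ⟨h.1.trans h'.1, fun β hβ => by
      have h1 := h.2 β hβ
      have h2 := h'.2 β (hβ.trans_le h.1)
      exact ⟨h2.1.trans h1.1, h2.2.trans h1.2⟩⟩)
  obtain ⟨⟨δ, u, v⟩, hG⟩ := m
  have hδ : δ = ω₁ := by
    by_contra hne
    have hδ1 : δ < ω₁ := lt_of_le_of_ne hG.tu.1 hne
    obtain ⟨δ', u', v', h1, h2, h3⟩ := good_ext hh hT hG hδ1
    have := hm ⟨(δ', u', v'), h3⟩ ⟨h1.le, h2⟩
    exact absurd this.1 (not_le.2 h1)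
  subst hδ
  exact ⟨p.1, (hT.tree.node p hp).1, u, hG.tu.branch hT.tree, v, hG.tv.branch hT.tree, hG.bit⟩

/-- Closure points are unbounded. -/
lemma cl_unbounded {δ₀ : Ordinal.{0}} (hδ : δ₀ < ω₁) {x y : Ordinal.{0} → Ordinal.{0}}
    (hx : ∀ β < ω₁, x β < ω₁) (hy : ∀ β < ω₁, y β < ω₁) (hh : ∀ β < ω₁, h β < ω₁) :
    ∀ β < ω₁, ∃ γ, Cl h δ₀ x y γ ∧ β < γ := by
  intro β hβ
  have hstep : ∀ a : Set.Iio (ω₁ : Ordinal.{0}), ∃ b : Set.Iio (ω₁ : Ordinal.{0}), a.1 < b.1 ∧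
      ∀ c < a.1, x c < b.1 ∧ y c < b.1 ∧ h c < b.1 := by
    rintro ⟨a, ha⟩
    obtain ⟨μ, hμ, hμ2⟩ := exists_bound ha x (fun c hc => hx c (hc.trans ha))
    obtain ⟨ν, hν, hν2⟩ := exists_bound ha y (fun c hc => hy c (hc.trans ha))
    obtain ⟨σ, hσ, hσ2⟩ := exists_bound ha h (fun c hc => hh c (hc.trans ha))
    refine ⟨⟨max (max (a + 1) σ) (max μ ν),
      max_lt (max_lt (add_one_lt_omega_one ha) hσ) (max_lt hμ hν)⟩, ?_, ?_⟩
    · exact (Order.lt_add_one_iff.2 le_rfl).trans_le ((le_max_left _ _).trans (le_max_left _ _))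
    · intro c hc
      exact ⟨(hμ2 c hc).trans_le ((le_max_left _ _).trans (le_max_right _ _)),
        (hν2 c hc).trans_le ((le_max_right _ _).trans (le_max_right _ _)),
        (hσ2 c hc).trans_le ((le_max_right _ _).trans (le_max_left _ _))⟩
  choose g hg1 hg2 using hstep
  let f : ℕ → Set.Iio (ω₁ : Ordinal.{0}) := fun n => g^[n] ⟨max δ₀ β, max_lt hδ hβ⟩
  have hfs : ∀ n, f (n + 1) = g (f n) := fun n => Function.iterate_succ_apply' g n _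
  have hb : BddAbove (Set.range fun n => (f n).1) :=
    ⟨ω₁, by rintro _ ⟨i, rfl⟩; exact (f i).2.le⟩
  have h1 : (⨆ n, (f n).1) < ω₁ := Ordinal.iSup_lt_omega_one (fun n => (f n).2)
  have hlt : ∀ n, (f n).1 < ⨆ n, (f n).1 := fun n => by
    refine lt_of_lt_of_le (hg1 (f n)) ?_
    rw [← hfs n]
    exact le_ciSup hb (n + 1)
  refine ⟨⨆ n, (f n).1, ⟨(le_max_left δ₀ β).trans_lt (hlt 0), h1, ?_⟩,
    (le_max_right δ₀ β).trans_lt (hlt 0)⟩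
  intro c hc
  obtain ⟨n, hn⟩ := (lt_ciSup_iff hb).1 hc
  have h2 := hg2 (f n) c hn
  rw [← hfs n] at h2
  exact ⟨h2.1.trans (hlt _), h2.2.1.trans (hlt _), h2.2.2.trans (hlt _)⟩

end Pool.Agent.Helper66.PLR
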