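import Pool.Agent.Helper66.PLR.Inner
import Pool.Agent.Helper66.PLR.Build

open Ordinal

namespace Pool.Agent.Helper66.PLR

variable {M : Set ZFSet.{0}}

lemma mem_graph {x : Ordinal.{0} → Ordinal.{0}} (hx : IsPt x) {z : ZFSet.{0}} :
    z ∈ graph x ↔ ∃ β < ω₁, z = ZFSet.pair β.toZFSet (x β).toZFSet := by
  unfold graph
  rw [ZFSet.mem_sep]
  refine ⟨fun h => h.2, fun h => ⟨?_, h⟩⟩
  obtain ⟨β, hβ, rfl⟩ := h
  rw [ZFSet.pair_mem_prod, Ordinal.toZFSet_mem_toZFSet_iff, Ordinal.toZFSet_mem_toZFSet_iff]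
  exact ⟨hβ, hx.1 β hβ⟩

lemma pair_mem_graph {x : Ordinal.{0} → Ordinal.{0}} (hx : IsPt x) {β ξ : Ordinal.{0}} :
    ZFSet.pair β.toZFSet ξ.toZFSet ∈ graph x ↔ β < ω₁ ∧ x β = ξ := by
  rw [mem_graph hx]
  constructor
  · rintro ⟨β', hβ', h⟩
    rw [ZFSet.pair_inj] at h
    have h1 := Ordinal.toZFSet_injective h.1
    have h2 := Ordinal.toZFSet_injective h.2
    subst h1
    exact ⟨hβ', h2.symm⟩
  · rintro ⟨h, rfl⟩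
    exact ⟨β, h, rfl⟩

lemma mem_subs {A : Ordinal.{0} → Prop} {z : ZFSet.{0}} :
    z ∈ subs A ↔ ∃ β < ω₁, A β ∧ z = β.toZFSet := by
  unfold subs
  rw [ZFSet.mem_sep, Ordinal.mem_toZFSet_iff]
  constructor
  · rintro ⟨⟨β, hβ, rfl⟩, γ, hγ, h⟩
    rw [Ordinal.toZFSet_injective.eq_iff] at h
    subst h
    exact ⟨β, hβ, hγ, rfl⟩
  · rintro ⟨β, hβ, h, rfl⟩
    exact ⟨⟨β, hβ, rfl⟩, β, h, rfl⟩

/-- the set version of `Rd` -/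
def RdZ (W X H g c a : ZFSet.{0}) : Prop :=
  ZFSet.pair c a ∈ X ∧ (g ∈ c ∨ g = c) ∧ ∃ e ∈ W, ZFSet.pair g e ∈ H ∧ ¬ a ∈ e ∧
    ∀ b ∈ c, ¬ b ∈ g → ∃ d ∈ W, ZFSet.pair b d ∈ X ∧ d ∈ e

lemma DD.rdZ (hM : IsInner M) (i c a : ℕ) (hi : i < 30) (hc : c < 30) (ha : a < 30) :
    DD M (fun v => RdZ (v 3) (v i) (v 6) (v 10) (v c) (v a)) := by
  unfold RdZ
  refine (DD.pairMem hM c a i).and (((DD.mem 10 c).or (DD.eq 10 c)).and ?_)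
  refine DD.bex hM 30 3 (by decide) (P := fun v e => ZFSet.pair (v 10) e ∈ v 6 ∧ ¬ v a ∈ e ∧
    ∀ b ∈ v c, ¬ b ∈ v 10 → ∃ d ∈ v 3, ZFSet.pair b d ∈ v i ∧ d ∈ e) ?_ ?_
  · refine (DD.pairMem hM 10 30 6).and ((DD.mem a 30).not.and ?_)
    refine DD.ball hM 31 c (by omega) (P := fun v b => ¬ b ∈ v 10 →
      ∃ d ∈ v 3, ZFSet.pair b d ∈ v i ∧ d ∈ v 30) ?_ ?_
    · refine (DD.mem 31 10).not.imp ?_
      refine DD.bex hM 32 3 (by decide) (P := fun v d => ZFSet.pair (v 31) d ∈ v i ∧ d ∈ v 30)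
        ?_ ?_
      · exact (DD.pairMem hM 31 32 i).and (DD.mem 32 30)
      · intro v z w
        have h1 : i ≠ 32 := by omega
        simp [h1]
    · intro v z w
      have h1 : i ≠ 31 := by omega
      simp [h1]
  · intro v z w
    have h1 : i ≠ 30 := by omega
    have h2 : c ≠ 30 := by omega
    have h3 : a ≠ 30 := by omega
    simp [h1, h2, h3]

lemma rdZ_iff {h x : Ordinal.{0} → Ordinal.{0}} (hh : IsPt h) (hx : IsPt x) {γ κ ξ : Ordinal.{0}}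
    (hγ : γ < ω₁) :
    RdZ (ω₁ : Ordinal.{0}).toZFSet (graph x) (graph h) γ.toZFSet κ.toZFSet ξ.toZFSet ↔
      κ < ω₁ ∧ x κ = ξ ∧ Rd h x γ κ := by
  unfold RdZ Rd
  rw [pair_mem_graph hx]
  constructor
  · rintro ⟨⟨h1, h2⟩, h3, e, _, he2, he3, h4⟩
    obtain ⟨ε, hε, rfl⟩ := Ordinal.mem_toZFSet_iff.1 (show e ∈ (ω₁ : Ordinal.{0}).toZFSet by
      assumption)
    rw [pair_mem_graph hh] at he2
    rw [Ordinal.toZFSet_mem_toZFSet_iff, not_lt, ← h2, ← he2.2] at he3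
    refine ⟨h1, h2, ?_, he3, ?_⟩
    · rcases h3 with h3 | h3
      · exact (Ordinal.toZFSet_mem_toZFSet_iff.1 h3).le
      · exact (Ordinal.toZFSet_injective h3).le
    · intro β hβ hβκ
      obtain ⟨d, hd, hd2, hd3⟩ := h4 β.toZFSet (Ordinal.toZFSet_mem_toZFSet_iff.2 hβκ)
        (by rw [Ordinal.toZFSet_mem_toZFSet_iff]; exact not_lt.2 hβ)
      obtain ⟨η, hη, rfl⟩ := Ordinal.mem_toZFSet_iff.1 hd
      rw [pair_mem_graph hx] at hd2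
      rw [Ordinal.toZFSet_mem_toZFSet_iff, ← he2.2, ← hd2.2] at hd3
      exact hd3
  · rintro ⟨h1, h2, h3, h4, h5⟩
    refine ⟨⟨h1, h2⟩, ?_, (h γ).toZFSet, Ordinal.toZFSet_mem_toZFSet_iff.2 (hh.1 γ hγ),
      (pair_mem_graph hh).2 ⟨hγ, rfl⟩, ?_, ?_⟩
    · rcases h3.lt_or_eq with h6 | h6
      · exact Or.inl (Ordinal.toZFSet_mem_toZFSet_iff.2 h6)
      · exact Or.inr (by rw [h6])
    · rw [Ordinal.toZFSet_mem_toZFSet_iff, not_lt, ← h2]; exact h4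
    · intro b hb hbg
      obtain ⟨β, hβ, rfl⟩ := Ordinal.mem_toZFSet_iff.1 hb
      rw [Ordinal.toZFSet_mem_toZFSet_iff, not_lt] at hbg
      exact ⟨(x β).toZFSet, Ordinal.toZFSet_mem_toZFSet_iff.2 (hx.1 β (hβ.trans h1)),
        (pair_mem_graph hx).2 ⟨hβ.trans h1, rfl⟩,
        Ordinal.toZFSet_mem_toZFSet_iff.2 (h5 β hbg hβ)⟩

theorem decode (hM : IsInner M) {h x y : Ordinal.{0} → Ordinal.{0}} (hh : IsPt h) (hx : IsPt x)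
    (hy : IsPt y) (hhM : graph h ∈ M) (hxM : graph x ∈ M) (hyM : graph y ∈ M)
    {δ₀ : Ordinal.{0}} (hδ : δ₀ < ω₁) {A : Ordinal.{0} → Prop}
    (hbit : ∀ γ < ω₁, Bit h A δ₀ x y ω₁ γ) : subs A ∈ M := by
  set W : ZFSet.{0} := (ω₁ : Ordinal.{0}).toZFSet with hW
  have hWM : W ∈ M := hM.ord _
  set D : Ordinal.{0} → Prop := Cl h δ₀ x y with hDdef
  set Dz : ZFSet.{0} := ZFSet.sep (fun g => δ₀.toZFSet ∈ g ∧ ∀ b ∈ g,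
    (∃ c ∈ g, ZFSet.pair b c ∈ graph x) ∧ (∃ c ∈ g, ZFSet.pair b c ∈ graph y) ∧
    ∃ c ∈ g, ZFSet.pair b c ∈ graph h) W with hDz
  have hDzM : Dz ∈ M := by
    have hdd : DD M (fun v => v 1 ∈ v 0 ∧ ∀ b ∈ v 0,
        (∃ c ∈ v 0, ZFSet.pair b c ∈ v 2) ∧ (∃ c ∈ v 0, ZFSet.pair b c ∈ v 3) ∧
        ∃ c ∈ v 0, ZFSet.pair b c ∈ v 4) := by
      refine (DD.mem 1 0).and ?_
      refine DD.ball hM 10 0 (by decide) (P := fun v b => (∃ c ∈ v 0, ZFSet.pair b c ∈ v 2) ∧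
        (∃ c ∈ v 0, ZFSet.pair b c ∈ v 3) ∧ ∃ c ∈ v 0, ZFSet.pair b c ∈ v 4) ?_ ?_
      · refine DD.and ?_ (DD.and ?_ ?_)
        · refine DD.bex hM 11 0 (by decide) (P := fun v c => ZFSet.pair (v 10) c ∈ v 2) ?_ ?_
          · exact DD.pairMem hM 10 11 2
          · intro v a b; simp
        · refine DD.bex hM 11 0 (by decide) (P := fun v c => ZFSet.pair (v 10) c ∈ v 3) ?_ ?_
          · exact DD.pairMem hM 10 11 3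
          · intro v a b; simp
        · refine DD.bex hM 11 0 (by decide) (P := fun v c => ZFSet.pair (v 10) c ∈ v 4) ?_ ?_
          · exact DD.pairMem hM 10 11 4
          · intro v a b; simp
      · intro v a b; simp
    exact sep_mem hM hdd [δ₀.toZFSet, graph x, graph y, graph h]
      (by simp [hxM, hyM, hhM, hM.ord]) hWM (fun b _ => Iff.rfl)
  have hD : ∀ z, z ∈ Dz ↔ ∃ i, D i ∧ i.toZFSet = z := by
    intro z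
    rw [hDz, ZFSet.mem_sep, hW, Ordinal.mem_toZFSet_iff]
    constructor
    · rintro ⟨⟨γ, hγ, rfl⟩, h1, h2⟩
      refine ⟨γ, ⟨Ordinal.toZFSet_mem_toZFSet_iff.1 h1, hγ, fun β hβ => ?_⟩, rfl⟩
      obtain ⟨⟨c, hc, hc2⟩, ⟨d, hd, hd2⟩, ⟨e, he, he2⟩⟩ :=
        h2 β.toZFSet (Ordinal.toZFSet_mem_toZFSet_iff.2 hβ)
      obtain ⟨κ, hκ, rfl⟩ := Ordinal.mem_toZFSet_iff.1 hc
      obtain ⟨κ', hκ', rfl⟩ := Ordinal.mem_toZFSet_iff.1 hd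
      obtain ⟨κ'', hκ'', rfl⟩ := Ordinal.mem_toZFSet_iff.1 he
      rw [pair_mem_graph hx] at hc2
      rw [pair_mem_graph hy] at hd2
      rw [pair_mem_graph hh] at he2
      rw [hc2.2, hd2.2, he2.2]
      exact ⟨hκ, hκ', hκ''⟩
    · rintro ⟨γ, ⟨h1, h2, h3⟩, rfl⟩
      refine ⟨⟨γ, h2, rfl⟩, Ordinal.toZFSet_mem_toZFSet_iff.2 h1, fun b hb => ?_⟩
      obtain ⟨β, hβ, rfl⟩ := Ordinal.mem_toZFSet_iff.1 hb
      obtain ⟨h4, h5, h6⟩ := h3 β hβ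
      exact ⟨⟨(x β).toZFSet, Ordinal.toZFSet_mem_toZFSet_iff.2 h4,
          (pair_mem_graph hx).2 ⟨hβ.trans h2, rfl⟩⟩,
        ⟨(y β).toZFSet, Ordinal.toZFSet_mem_toZFSet_iff.2 h5,
          (pair_mem_graph hy).2 ⟨hβ.trans h2, rfl⟩⟩,
        ⟨(h β).toZFSet, Ordinal.toZFSet_mem_toZFSet_iff.2 h6,
          (pair_mem_graph hh).2 ⟨hβ.trans h2, rfl⟩⟩⟩
  set Rz : ZFSet.{0} := ZFSet.sep (fun p => ∃ a ∈ Dz, ∃ b ∈ Dz, p = ZFSet.pair a b ∧ a ∈ b)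
    (ZFSet.prod Dz Dz) with hRz
  have hRzM : Rz ∈ M := by
    have hdd : DD M (fun v => ∃ a ∈ v 1, ∃ b ∈ v 1, v 0 = ZFSet.pair a b ∧ a ∈ b) := by
      refine DD.bex hM 10 1 (by decide) (P := fun v a => ∃ b ∈ v 1, v 0 = ZFSet.pair a b ∧ a ∈ b)
        ?_ ?_
      · refine DD.bex hM 11 1 (by decide) (P := fun v b => v 0 = ZFSet.pair (v 10) b ∧ v 10 ∈ b)
          ?_ ?_
        · exact (DD.isPair hM 0 10 11).and (DD.mem 10 11)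
        · intro v a b; simp
      · intro v a b; simp
    exact sep_mem hM hdd [Dz] (by simp [hDzM]) (prod_mem hM hDzM hDzM) (fun b _ => Iff.rfl)
  have hR : ∀ i j, D i → D j → (ZFSet.pair j.toZFSet i.toZFSet ∈ Rz ↔ rC D j i) := by
    intro i j hi hj
    rw [hRz, ZFSet.mem_sep, ZFSet.pair_mem_prod]
    constructor
    · rintro ⟨_, a, _, b, _, h, hab⟩
      rw [ZFSet.pair_inj] at h
      rw [← h.1, ← h.2, Ordinal.toZFSet_mem_toZFSet_iff] at hab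
      exact ⟨hj, hab⟩
    · intro h
      have hjz : j.toZFSet ∈ Dz := (hD _).2 ⟨j, hj, rfl⟩
      have hiz : i.toZFSet ∈ Dz := (hD _).2 ⟨i, hi, rfl⟩
      exact ⟨⟨hjz, hiz⟩, _, hjz, _, hiz, rfl, Ordinal.toZFSet_mem_toZFSet_iff.2 h.2⟩
  have hrk : ∀ i, D i → ∀ κ, κ < rk D i ↔ ∃ j, D j ∧ rC D j i ∧ rk D j = κ := by
    intro i hi κ
    constructor
    · intro h
      obtain ⟨b, hb, hb2, hb3⟩ := exists_rk_eq hi.2.1 h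
      exact ⟨b, hb, ⟨hb, hb2⟩, hb3⟩
    · rintro ⟨j, hj, hji, rfl⟩
      exact rk_lt hi.2.1 hj hji.2
  obtain ⟨K, hKM, hK⟩ := collapse_mem hM D (fun i => i.toZFSet) (rC D) (wf_rC D) (rk D) hDzM hRzM
    hD hR hrk (fun i hi => rk_lt_omega hi.2.1)
  have hfin : ZFSet.sep (fun i => ∃ g ∈ Dz, ZFSet.pair i g ∈ K ∧ ∃ c ∈ W, ∃ a ∈ W, ∃ c' ∈ W,
      ∃ b ∈ W, RdZ W (graph x) (graph h) g c a ∧ RdZ W (graph y) (graph h) g c' b ∧ a ∈ b) W ∈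
      M := by
    have hdd : DD M (fun v => ∃ g ∈ v 1, ZFSet.pair (v 0) g ∈ v 2 ∧ ∃ c ∈ v 3, ∃ a ∈ v 3,
        ∃ c' ∈ v 3, ∃ b ∈ v 3, RdZ (v 3) (v 4) (v 6) g c a ∧ RdZ (v 3) (v 5) (v 6) g c' b ∧
        a ∈ b) := by
      refine DD.bex hM 10 1 (by decide) (P := fun v g => ZFSet.pair (v 0) g ∈ v 2 ∧
        ∃ c ∈ v 3, ∃ a ∈ v 3, ∃ c' ∈ v 3, ∃ b ∈ v 3, RdZ (v 3) (v 4) (v 6) g c a ∧
        RdZ (v 3) (v 5) (v 6) g c' b ∧ a ∈ b) ?_ ?_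
      swap
      · intro v a b; simp
      refine (DD.pairMem hM 0 10 2).and ?_
      refine DD.bex hM 11 3 (by decide) (P := fun v c =>
        ∃ a ∈ v 3, ∃ c' ∈ v 3, ∃ b ∈ v 3, RdZ (v 3) (v 4) (v 6) (v 10) c a ∧
        RdZ (v 3) (v 5) (v 6) (v 10) c' b ∧ a ∈ b) ?_ ?_
      swap
      · intro v a b; simp
      refine DD.bex hM 12 3 (by decide) (P := fun v a =>
        ∃ c' ∈ v 3, ∃ b ∈ v 3, RdZ (v 3) (v 4) (v 6) (v 10) (v 11) a ∧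
        RdZ (v 3) (v 5) (v 6) (v 10) c' b ∧ a ∈ b) ?_ ?_
      swap
      · intro v a b; simp
      refine DD.bex hM 13 3 (by decide) (P := fun v c' =>
        ∃ b ∈ v 3, RdZ (v 3) (v 4) (v 6) (v 10) (v 11) (v 12) ∧
        RdZ (v 3) (v 5) (v 6) (v 10) c' b ∧ v 12 ∈ b) ?_ ?_
      swap
      · intro v a b; simp
      refine DD.bex hM 14 3 (by decide) (P := fun v b =>
        RdZ (v 3) (v 4) (v 6) (v 10) (v 11) (v 12) ∧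
        RdZ (v 3) (v 5) (v 6) (v 10) (v 13) b ∧ v 12 ∈ b) ?_ ?_
      swap
      · intro v a b; simp
      exact (DD.rdZ hM 4 11 12 (by decide) (by decide) (by decide)).and
        ((DD.rdZ hM 5 13 14 (by decide) (by decide) (by decide)).and (DD.mem 12 14))
    exact sep_mem hM hdd [Dz, K, W, graph x, graph y, graph h]
      (by simp [hDzM, hKM, hWM, hxM, hyM, hhM]) hWM (fun b _ => Iff.rfl)
  convert hfin using 1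
  ext z
  rw [mem_subs, ZFSet.mem_sep]
  constructor
  · rintro ⟨κ, hκ, hA, rfl⟩
    obtain ⟨γ, hγ, rfl⟩ := rk_surj (C := D) (fun γ h => h.2.1)
      (cl_unbounded hδ hx.1 hy.1 hh.1) κ hκ
    obtain ⟨c, hc, c', hc', hr, hr', hb⟩ := hbit γ hγ.2.1 hγ
    refine ⟨Ordinal.toZFSet_mem_toZFSet_iff.2 hκ, γ.toZFSet, (hD _).2 ⟨γ, hγ, rfl⟩,
      (hK _).2 ⟨γ, hγ, rfl⟩, c.toZFSet, Ordinal.toZFSet_mem_toZFSet_iff.2 hc,
      (x c).toZFSet, Ordinal.toZFSet_mem_toZFSet_iff.2 (hx.1 c hc),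
      c'.toZFSet, Ordinal.toZFSet_mem_toZFSet_iff.2 hc',
      (y c').toZFSet, Ordinal.toZFSet_mem_toZFSet_iff.2 (hy.1 c' hc'),
      (rdZ_iff hh hx hγ.2.1).2 ⟨hc, rfl, hr⟩, (rdZ_iff hh hy hγ.2.1).2 ⟨hc', rfl, hr'⟩, ?_⟩
    rw [Ordinal.toZFSet_mem_toZFSet_iff]
    exact hb.2 hA
  · rintro ⟨_, g, hg, hgK, c, hc, a, ha, c', hc', b, hb, hga, hgb, hab⟩
    obtain ⟨γ, hγ, h'⟩ := (hK _).1 hgK
    rw [ZFSet.pair_inj] at h'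
    obtain ⟨rfl, rfl⟩ := h'
    obtain ⟨α, hα, rfl⟩ := Ordinal.mem_toZFSet_iff.1 ha
    obtain ⟨β, hβ, rfl⟩ := Ordinal.mem_toZFSet_iff.1 hb
    obtain ⟨κ, hκ, rfl⟩ := Ordinal.mem_toZFSet_iff.1 hc
    obtain ⟨κ', hκ', rfl⟩ := Ordinal.mem_toZFSet_iff.1 hc'
    rw [hW, rdZ_iff hh hx hγ.2.1] at hga
    rw [hW, rdZ_iff hh hy hγ.2.1] at hgb
    rw [Ordinal.toZFSet_mem_toZFSet_iff, ← hga.2.1, ← hgb.2.1] at hab
    obtain ⟨c, _, c', _, hr, hr', hb⟩ := hbit γ hγ.2.1 hγ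
    have e1 := rd_unique hr hga.2.2
    have e2 := rd_unique hr' hgb.2.2
    rw [e1, e2] at hb
    exact ⟨_, rk_lt_omega hγ.2.1, hb.1 hab, rfl⟩

/-- Gödel's well-order of `ω₁ × ω₁`. -/
def gr (p q : Ordinal.{0} × Ordinal.{0}) : Prop :=
  (p.1 < ω₁ ∧ p.2 < ω₁) ∧ (q.1 < ω₁ ∧ q.2 < ω₁) ∧
    (toLex (max p.1 p.2, toLex (p.1, p.2)) : Ordinal.{0} ×ₗ (Ordinal.{0} ×ₗ Ordinal.{0})) <
      toLex (max q.1 q.2, toLex (q.1, q.2))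

lemma gr_wf : WellFounded gr := by
  have h : WellFounded ((· < ·) : Ordinal.{0} ×ₗ (Ordinal.{0} ×ₗ Ordinal.{0}) → _ → Prop) :=
    wellFounded_lt
  exact Subrelation.wf (fun {_ _} h => h.2.2) (InvImage.wf
    (fun p : Ordinal.{0} × Ordinal.{0} =>
      (toLex (max p.1 p.2, toLex (p.1, p.2)) : Ordinal.{0} ×ₗ (Ordinal.{0} ×ₗ Ordinal.{0}))) h)

lemma gr_iff {p q : Ordinal.{0} × Ordinal.{0}} : gr p q ↔ (p.1 < ω₁ ∧ p.2 < ω₁) ∧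
    (q.1 < ω₁ ∧ q.2 < ω₁) ∧ (max p.1 p.2 < max q.1 q.2 ∨ (max p.1 p.2 = max q.1 q.2 ∧
      (p.1 < q.1 ∨ (p.1 = q.1 ∧ p.2 < q.2)))) := by
  unfold gr
  rw [Prod.Lex.toLex_lt_toLex, Prod.Lex.toLex_lt_toLex]

lemma gr_down : ∀ a : Ordinal.{0} × Ordinal.{0}, (a.1 < ω₁ ∧ a.2 < ω₁) → ∀ b, gr b a →
    (b.1 < ω₁ ∧ b.2 < ω₁) := fun _ _ _ h => h.1

lemma gr_countable : ∀ a : Ordinal.{0} × Ordinal.{0}, (a.1 < ω₁ ∧ a.2 < ω₁) →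
    Countable {b // gr b a} := by
  intro a ha
  have hm : max a.1 a.2 + 1 < ω₁ := add_one_lt_omega_one (max_lt ha.1 ha.2)
  have := countable_Iio hm
  have hle : ∀ b : {b // gr b a}, max b.1.1 b.1.2 < max a.1 a.2 + 1 := by
    rintro ⟨b, hb⟩
    rw [Order.lt_add_one_iff]
    rcases (gr_iff.1 hb).2.2 with h | h
    · exact h.le
    · exact h.1.le
  refine Function.Injective.countable (f := fun b : {b // gr b a} =>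
    ((⟨b.1.1, (le_max_left _ _).trans_lt (hle b)⟩, ⟨b.1.2, (le_max_right _ _).trans_lt (hle b)⟩) :
      Set.Iio (max a.1 a.2 + 1) × Set.Iio (max a.1 a.2 + 1))) ?_
  intro b c h
  exact Subtype.ext (Prod.ext (congrArg (fun z => z.1.1) h) (congrArg (fun z => z.2.1) h))

lemma gr_trans : ∀ a b c : Ordinal.{0} × Ordinal.{0}, gr a b → gr b c → gr a c :=
  fun _ _ _ h h' => ⟨h.1, h'.2.1, h.2.2.trans h'.2.2⟩

lemma gr_inj {p q : Ordinal.{0} × Ordinal.{0}} (hp : p.1 < ω₁ ∧ p.2 < ω₁)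
    (hq : q.1 < ω₁ ∧ q.2 < ω₁) (h : rkr gr_wf p = rkr gr_wf q) : p = q := by
  rcases lt_trichotomy
    (toLex (max p.1 p.2, toLex (p.1, p.2)) : Ordinal.{0} ×ₗ (Ordinal.{0} ×ₗ Ordinal.{0}))
    (toLex (max q.1 q.2, toLex (q.1, q.2))) with h1 | h1 | h1
  · have := rkr_lt gr_wf gr_down gr_countable hq (show gr p q from ⟨hp, hq, h1⟩)
    exact absurd h this.ne
  · have h2 : (max p.1 p.2, toLex (p.1, p.2)) = (max q.1 q.2, toLex (q.1, q.2)) := toLex_inj.1 h1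
    have h3 : toLex (p.1, p.2) = toLex (q.1, q.2) := (Prod.mk.inj h2).2
    exact toLex_inj.1 h3
  · have := rkr_lt gr_wf gr_down gr_countable hp (show gr q p from ⟨hq, hp, h1⟩)
    exact absurd h this.ne'

/-- If all subsets of `ω₁` are in the inner model `M`, so are all functions `ω₁ → ω₁`. -/
theorem graph_mem_of_subs (hM : IsInner M) (h : ∀ A : Ordinal.{0} → Prop, subs A ∈ M)
    {f : Ordinal.{0} → Ordinal.{0}} (hf : IsPt f) : graph f ∈ M := by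
  set W : ZFSet.{0} := (ω₁ : Ordinal.{0}).toZFSet with hW
  have hWM : W ∈ M := hM.ord _
  have hmW : ∀ α : Ordinal.{0}, α.toZFSet ∈ W ↔ α < ω₁ := fun α =>
    Ordinal.toZFSet_mem_toZFSet_iff
  set Dz : ZFSet.{0} := ZFSet.prod W W with hDz
  have hDzM : Dz ∈ M := prod_mem hM hWM hWM
  have hD : ∀ z, z ∈ Dz ↔ ∃ p : Ordinal.{0} × Ordinal.{0}, (p.1 < ω₁ ∧ p.2 < ω₁) ∧
      ZFSet.pair p.1.toZFSet p.2.toZFSet = z := by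
    intro z
    rw [hDz, ZFSet.mem_prod]
    constructor
    · rintro ⟨a, ha, b, hb, rfl⟩
      obtain ⟨α, hα, rfl⟩ := Ordinal.mem_toZFSet_iff.1 ha
      obtain ⟨β, hβ, rfl⟩ := Ordinal.mem_toZFSet_iff.1 hb
      exact ⟨(α, β), ⟨hα, hβ⟩, rfl⟩
    · rintro ⟨p, ⟨h1, h2⟩, rfl⟩
      exact ⟨_, (hmW _).2 h1, _, (hmW _).2 h2, rfl⟩
  set Rz : ZFSet.{0} := ZFSet.sep (fun z => ∃ s ∈ Dz, ∃ t ∈ Dz, ∃ a ∈ W, ∃ b ∈ W, ∃ c ∈ W, ∃ d ∈ W,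
    (z = ZFSet.pair s t ∧ s = ZFSet.pair a b ∧ t = ZFSet.pair c d) ∧
    (((a ∈ c ∨ a ∈ d) ∧ (b ∈ c ∨ b ∈ d)) ∨ (¬ ((c ∈ a ∨ c ∈ b) ∧ (d ∈ a ∨ d ∈ b)) ∧
      (a ∈ c ∨ (a = c ∧ b ∈ d))))) (ZFSet.prod Dz Dz) with hRz
  have hRzM : Rz ∈ M := by
    have hdd : DD M (fun v => ∃ s ∈ v 2, ∃ t ∈ v 2, ∃ a ∈ v 1, ∃ b ∈ v 1, ∃ c ∈ v 1, ∃ d ∈ v 1,
        (v 0 = ZFSet.pair s t ∧ s = ZFSet.pair a b ∧ t = ZFSet.pair c d) ∧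
        (((a ∈ c ∨ a ∈ d) ∧ (b ∈ c ∨ b ∈ d)) ∨ (¬ ((c ∈ a ∨ c ∈ b) ∧ (d ∈ a ∨ d ∈ b)) ∧
          (a ∈ c ∨ (a = c ∧ b ∈ d))))) := by
      refine DD.bex hM 10 2 (by decide) (P := fun v s => ∃ t ∈ v 2, ∃ a ∈ v 1, ∃ b ∈ v 1,
        ∃ c ∈ v 1, ∃ d ∈ v 1,
        (v 0 = ZFSet.pair s t ∧ s = ZFSet.pair a b ∧ t = ZFSet.pair c d) ∧
        (((a ∈ c ∨ a ∈ d) ∧ (b ∈ c ∨ b ∈ d)) ∨ (¬ ((c ∈ a ∨ c ∈ b) ∧ (d ∈ a ∨ d ∈ b)) ∧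
          (a ∈ c ∨ (a = c ∧ b ∈ d))))) ?_ ?_
      swap
      · intro v a b; simp
      refine DD.bex hM 11 2 (by decide) (P := fun v t => ∃ a ∈ v 1, ∃ b ∈ v 1,
        ∃ c ∈ v 1, ∃ d ∈ v 1,
        (v 0 = ZFSet.pair (v 10) t ∧ v 10 = ZFSet.pair a b ∧ t = ZFSet.pair c d) ∧
        (((a ∈ c ∨ a ∈ d) ∧ (b ∈ c ∨ b ∈ d)) ∨ (¬ ((c ∈ a ∨ c ∈ b) ∧ (d ∈ a ∨ d ∈ b)) ∧
          (a ∈ c ∨ (a = c ∧ b ∈ d))))) ?_ ?_
      swap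
      · intro v a b; simp
      refine DD.bex hM 12 1 (by decide) (P := fun v a => ∃ b ∈ v 1,
        ∃ c ∈ v 1, ∃ d ∈ v 1,
        (v 0 = ZFSet.pair (v 10) (v 11) ∧ v 10 = ZFSet.pair a b ∧ v 11 = ZFSet.pair c d) ∧
        (((a ∈ c ∨ a ∈ d) ∧ (b ∈ c ∨ b ∈ d)) ∨ (¬ ((c ∈ a ∨ c ∈ b) ∧ (d ∈ a ∨ d ∈ b)) ∧
          (a ∈ c ∨ (a = c ∧ b ∈ d))))) ?_ ?_
      swap
      · intro v a b; simp
      refine DD.bex hM 13 1 (by decide) (P := fun v b =>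
        ∃ c ∈ v 1, ∃ d ∈ v 1,
        (v 0 = ZFSet.pair (v 10) (v 11) ∧ v 10 = ZFSet.pair (v 12) b ∧ v 11 = ZFSet.pair c d) ∧
        (((v 12 ∈ c ∨ v 12 ∈ d) ∧ (b ∈ c ∨ b ∈ d)) ∨
          (¬ ((c ∈ v 12 ∨ c ∈ b) ∧ (d ∈ v 12 ∨ d ∈ b)) ∧
          (v 12 ∈ c ∨ (v 12 = c ∧ b ∈ d))))) ?_ ?_
      swap
      · intro v a b; simp
      refine DD.bex hM 14 1 (by decide) (P := fun v c =>
        ∃ d ∈ v 1,
        (v 0 = ZFSet.pair (v 10) (v 11) ∧ v 10 = ZFSet.pair (v 12) (v 13) ∧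
          v 11 = ZFSet.pair c d) ∧
        (((v 12 ∈ c ∨ v 12 ∈ d) ∧ (v 13 ∈ c ∨ v 13 ∈ d)) ∨
          (¬ ((c ∈ v 12 ∨ c ∈ v 13) ∧ (d ∈ v 12 ∨ d ∈ v 13)) ∧
          (v 12 ∈ c ∨ (v 12 = c ∧ v 13 ∈ d))))) ?_ ?_
      swap
      · intro v a b; simp
      refine DD.bex hM 15 1 (by decide) (P := fun v d =>
        (v 0 = ZFSet.pair (v 10) (v 11) ∧ v 10 = ZFSet.pair (v 12) (v 13) ∧
          v 11 = ZFSet.pair (v 14) d) ∧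
        (((v 12 ∈ v 14 ∨ v 12 ∈ d) ∧ (v 13 ∈ v 14 ∨ v 13 ∈ d)) ∨
          (¬ ((v 14 ∈ v 12 ∨ v 14 ∈ v 13) ∧ (d ∈ v 12 ∨ d ∈ v 13)) ∧
          (v 12 ∈ v 14 ∨ (v 12 = v 14 ∧ v 13 ∈ d))))) ?_ ?_
      swap
      · intro v a b; simp
      exact ((DD.isPair hM 0 10 11).and ((DD.isPair hM 10 12 13).and (DD.isPair hM 11 14 15))).and
        ((((DD.mem 12 14).or (DD.mem 12 15)).and ((DD.mem 13 14).or (DD.mem 13 15))).or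
          ((((DD.mem 14 12).or (DD.mem 14 13)).and ((DD.mem 15 12).or (DD.mem 15 13))).not.and
            ((DD.mem 12 14).or ((DD.eq 12 14).and (DD.mem 13 15)))))
    exact sep_mem hM hdd [W, Dz] (by simp [hWM, hDzM]) (prod_mem hM hDzM hDzM)
      (fun b _ => Iff.rfl)
  have hR : ∀ p q : Ordinal.{0} × Ordinal.{0}, (p.1 < ω₁ ∧ p.2 < ω₁) → (q.1 < ω₁ ∧ q.2 < ω₁) →
      (ZFSet.pair (ZFSet.pair q.1.toZFSet q.2.toZFSet) (ZFSet.pair p.1.toZFSet p.2.toZFSet) ∈ Rz ↔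
        gr q p) := by
    rintro ⟨p1, p2⟩ ⟨q1, q2⟩ hp hq
    rw [gr_iff, hRz, ZFSet.mem_sep, ZFSet.pair_mem_prod]
    have hdich : ((q1 < p1 ∨ q1 < p2) ∧ (q2 < p1 ∨ q2 < p2)) ∨
        (¬ ((p1 < q1 ∨ p1 < q2) ∧ (p2 < q1 ∨ p2 < q2)) ∧ (q1 < p1 ∨ (q1 = p1 ∧ q2 < p2))) ↔
        (max q1 q2 < max p1 p2 ∨ (max q1 q2 = max p1 p2 ∧ (q1 < p1 ∨ (q1 = p1 ∧ q2 < p2)))) := by
      rw [← lt_max_iff, ← lt_max_iff, ← max_lt_iff, ← lt_max_iff, ← lt_max_iff, ← max_lt_iff,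
        not_lt]
      constructor
      · rintro (h | ⟨h, h'⟩)
        · exact Or.inl h
        · rcases h.lt_or_eq with h2 | h2
          · exact Or.inl h2
          · exact Or.inr ⟨h2, h'⟩
      · rintro (h | ⟨h, h'⟩)
        · exact Or.inl h
        · exact Or.inr ⟨h.le, h'⟩
    constructor
    · rintro ⟨_, s, _, t, _, a, _, b, _, c, _, d, _, ⟨h1, h2, h3⟩, h4⟩
      rw [ZFSet.pair_inj] at h1
      rw [← h1.1, ZFSet.pair_inj] at h2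
      rw [← h1.2, ZFSet.pair_inj] at h3
      obtain ⟨rfl, rfl⟩ := h2
      obtain ⟨rfl, rfl⟩ := h3
      simp only [Ordinal.toZFSet_mem_toZFSet_iff, Ordinal.toZFSet_injective.eq_iff] at h4
      exact ⟨hq, hp, hdich.1 h4⟩
    · rintro ⟨_, _, h⟩
      refine ⟨⟨(hD _).2 ⟨(q1, q2), hq, rfl⟩, (hD _).2 ⟨(p1, p2), hp, rfl⟩⟩, _,
        (hD _).2 ⟨(q1, q2), hq, rfl⟩, _, (hD _).2 ⟨(p1, p2), hp, rfl⟩, _, (hmW _).2 hq.1, _,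
        (hmW _).2 hq.2, _, (hmW _).2 hp.1, _, (hmW _).2 hp.2, ⟨rfl, rfl, rfl⟩, ?_⟩
      simp only [Ordinal.toZFSet_mem_toZFSet_iff, Ordinal.toZFSet_injective.eq_iff]
      exact hdich.2 h
  have hrk : ∀ p : Ordinal.{0} × Ordinal.{0}, (p.1 < ω₁ ∧ p.2 < ω₁) → ∀ κ,
      κ < rkr gr_wf p ↔ ∃ q : Ordinal.{0} × Ordinal.{0}, (q.1 < ω₁ ∧ q.2 < ω₁) ∧ gr q p ∧
        rkr gr_wf q = κ := by
    intro p hp κ
    constructor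
    · intro h
      obtain ⟨q, hq, hq2⟩ := exists_rkr_eq gr_wf gr_down gr_countable gr_trans p hp κ h
      exact ⟨q, hq.1, hq, hq2⟩
    · rintro ⟨q, _, hqp, rfl⟩
      exact rkr_lt gr_wf gr_down gr_countable hp hqp
  obtain ⟨K, hKM, hK⟩ := collapse_mem hM
    (fun p : Ordinal.{0} × Ordinal.{0} => (p.1 < ω₁ ∧ p.2 < ω₁))
    (fun p => ZFSet.pair p.1.toZFSet p.2.toZFSet) gr gr_wf (rkr gr_wf) hDzM hRzM
    hD hR hrk (fun p hp => rkr_lt_omega gr_wf gr_down gr_countable p hp)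
  set S : ZFSet.{0} := subs (fun κ => ∃ α < ω₁, κ = rkr gr_wf (α, f α)) with hS
  have hSM : S ∈ M := h _
  have hfin : ZFSet.sep (fun z => ∃ k ∈ S, ZFSet.pair k z ∈ K) Dz ∈ M := by
    have hdd : DD M (fun v => ∃ k ∈ v 1, ZFSet.pair k (v 0) ∈ v 2) := by
      refine DD.bex hM 10 1 (by decide) (P := fun v k => ZFSet.pair k (v 0) ∈ v 2) ?_ ?_
      · exact DD.pairMem hM 10 0 2
      · intro v a b; simp
    exact sep_mem hM hdd [S, K] (by simp [hSM, hKM]) hDzM (fun b _ => Iff.rfl)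
  convert hfin using 1
  ext z
  rw [mem_graph hf, ZFSet.mem_sep]
  constructor
  · rintro ⟨β, hβ, rfl⟩
    refine ⟨(hD _).2 ⟨(β, f β), ⟨hβ, hf.1 β hβ⟩, rfl⟩, (rkr gr_wf (β, f β)).toZFSet, ?_, ?_⟩
    · rw [hS, mem_subs]
      exact ⟨_, rkr_lt_omega gr_wf gr_down gr_countable _ ⟨hβ, hf.1 β hβ⟩, ⟨β, hβ, rfl⟩, rfl⟩
    · exact (hK _).2 ⟨(β, f β), ⟨hβ, hf.1 β hβ⟩, rfl⟩
  · rintro ⟨_, k, hk, hkK⟩
    obtain ⟨p, hp, hp2⟩ := (hK _).1 hkK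
    rw [ZFSet.pair_inj] at hp2
    obtain ⟨rfl, rfl⟩ := hp2
    obtain ⟨κ, _, ⟨α, hα, hα2⟩, hκ⟩ := mem_subs.1 hk
    have h1 : rkr gr_wf p = rkr gr_wf (α, f α) := by
      rw [← hα2]; exact Ordinal.toZFSet_injective hκ
    have h2 := gr_inj hp (show (α, f α).1 < ω₁ ∧ (α, f α).2 < ω₁ from ⟨hα, hf.1 α hα⟩) h1
    subst h2
    exact ⟨α, hα, rfl⟩

end Pool.Agent.Helper66.PLR
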