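import Pool.Agent.Helper66.PLR.DefsE
import Pool.Agent.Helper66.PLR.Decode

open Ordinal

namespace Pool.Agent.Helper66.PLR

variable {T : Set (Ordinal.{0} × (Ordinal.{0} → Ordinal.{0}))}

lemma lt_add_one' (a : Ordinal.{0}) : a < a + 1 := Order.lt_add_one_iff.2 le_rfl

/-- A countable intersection of clubs is a club. -/
lemma club_inter {C : ℕ → Set Ordinal.{0}} (hC : ∀ n, IsClubIn (C n)) :
    IsClubIn {γ | ∀ n, γ ∈ C n} := by
  refine ⟨fun γ hγ => (hC 0).1 γ (hγ 0), ?_, ?_⟩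
  swap
  · intro l hl hlim h n
    refine (hC n).2.2 l hl hlim ?_
    intro β hβ
    obtain ⟨γ, hγ, h2⟩ := h β hβ
    exact ⟨γ, hγ n, h2⟩
  intro β hβ
  have hstep : ∀ a : Set.Iio (ω₁ : Ordinal.{0}), ∃ b : Set.Iio (ω₁ : Ordinal.{0}), a.1 < b.1 ∧
      ∀ n, ∃ c ∈ C n, a.1 < c ∧ c < b.1 := by
    rintro ⟨a, ha⟩
    choose g hg1 hg2 using fun n => (hC n).2.1 a ha
    have hb : BddAbove (Set.range g) := ⟨ω₁, by rintro _ ⟨i, rfl⟩; exact ((hC i).1 _ (hg1 i)).le⟩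
    have h1 : (⨆ n, g n) < ω₁ := Ordinal.iSup_lt_omega_one (fun n => (hC n).1 _ (hg1 n))
    refine ⟨⟨(⨆ n, g n) + 1, add_one_lt_omega_one h1⟩, ?_, fun n => ⟨g n, hg1 n, hg2 n, ?_⟩⟩
    · exact (hg2 0).trans (Order.lt_add_one_iff.2 (le_ciSup hb 0))
    · exact Order.lt_add_one_iff.2 (le_ciSup hb n)
  choose g hg1 hg2 using hstep
  let f : ℕ → Set.Iio (ω₁ : Ordinal.{0}) := fun n => g^[n] ⟨β, hβ⟩
  have hfs : ∀ n, f (n + 1) = g (f n) := fun n => Function.iterate_succ_apply' g n _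
  have hb : BddAbove (Set.range fun n => (f n).1) :=
    ⟨ω₁, by rintro _ ⟨i, rfl⟩; exact (f i).2.le⟩
  have h1 : (⨆ n, (f n).1) < ω₁ := Ordinal.iSup_lt_omega_one (fun n => (f n).2)
  have hlt : ∀ n, (f n).1 < ⨆ n, (f n).1 := fun n => by
    refine lt_of_lt_of_le (hg1 (f n)) ?_
    rw [← hfs n]
    exact le_ciSup hb (n + 1)
  have hlim := isSuccLimit_iSup (fun n => (f n).1) hb hlt
  refine ⟨⨆ n, (f n).1, fun k => ?_, hlt 0⟩
  refine (hC k).2.2 _ h1 hlim ?_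
  intro b hb'
  obtain ⟨n, hn⟩ := (lt_ciSup_iff hb).1 hb'
  obtain ⟨c, hc, hc1, hc2⟩ := hg2 (f n) k
  rw [← hfs n] at hc2
  exact ⟨c, hc, hn.trans hc1, hc2.trans (hlt _)⟩

lemma club_inter2 {C D : Set Ordinal.{0}} (hC : IsClubIn C) (hD : IsClubIn D) :
    IsClubIn {γ | γ ∈ C ∧ γ ∈ D} := by
  have h := club_inter (C := fun n => if n = 0 then C else D) (fun n => by
    by_cases hn : n = 0
    · simpa [hn] using hC
    · simpa [hn] using hD)
  have e : {γ | ∀ n : ℕ, γ ∈ (if n = 0 then C else D)} = {γ | γ ∈ C ∧ γ ∈ D} := by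
    ext γ
    constructor
    · intro hγ
      exact ⟨by simpa using hγ 0, by simpa using hγ 1⟩
    · rintro ⟨h1, h2⟩ n
      by_cases hn : n = 0
      · simpa [hn] using h1
      · simpa [hn] using h2
  rwa [e] at h

lemma club_above {C : Set Ordinal.{0}} (hC : IsClubIn C) {α : Ordinal.{0}} (hα : α < ω₁) :
    IsClubIn {γ | γ ∈ C ∧ α < γ} := by
  refine ⟨fun γ hγ => hC.1 γ hγ.1, ?_, ?_⟩
  · intro β hβ
    obtain ⟨γ, hγ, h⟩ := hC.2.1 (max α β) (max_lt hα hβ)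
    exact ⟨γ, ⟨hγ, (le_max_left _ _).trans_lt h⟩, (le_max_right _ _).trans_lt h⟩
  · intro l hl hlim h
    refine ⟨hC.2.2 l hl hlim fun β hβ => ?_, ?_⟩
    · obtain ⟨γ, hγ, h2⟩ := h β hβ
      exact ⟨γ, hγ.1, h2⟩
    · obtain ⟨γ, hγ, h2⟩ := h 0 (lt_of_le_of_ne zero_le (Ne.symm hlim.ne_bot))
      exact hγ.2.trans h2.2

/-- The limit points of an unbounded set form a club. -/
lemma club_limits {D : Set Ordinal.{0}} (hD1 : ∀ d ∈ D, d < ω₁)
    (hD : ∀ β < ω₁, ∃ d ∈ D, β < d) :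
    IsClubIn {l | l < ω₁ ∧ Order.IsSuccLimit l ∧ ∀ β < l, ∃ d ∈ D, β < d ∧ d < l} := by
  refine ⟨fun γ hγ => hγ.1, ?_, ?_⟩
  · intro β hβ
    have hstep : ∀ a : Set.Iio (ω₁ : Ordinal.{0}), ∃ b : Set.Iio (ω₁ : Ordinal.{0}),
        a.1 < b.1 ∧ b.1 ∈ D := by
      rintro ⟨a, ha⟩
      obtain ⟨d, hd, hd2⟩ := hD a ha
      exact ⟨⟨d, hD1 d hd⟩, hd2, hd⟩
    choose g hg1 hg2 using hstep
    let f : ℕ → Set.Iio (ω₁ : Ordinal.{0}) := fun n => g^[n] ⟨β, hβ⟩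
    have hfs : ∀ n, f (n + 1) = g (f n) := fun n => Function.iterate_succ_apply' g n _
    have hb : BddAbove (Set.range fun n => (f n).1) :=
      ⟨ω₁, by rintro _ ⟨i, rfl⟩; exact (f i).2.le⟩
    have h1 : (⨆ n, (f n).1) < ω₁ := Ordinal.iSup_lt_omega_one (fun n => (f n).2)
    have hlt : ∀ n, (f n).1 < ⨆ n, (f n).1 := fun n => by
      refine lt_of_lt_of_le (hg1 (f n)) ?_
      rw [← hfs n]
      exact le_ciSup hb (n + 1)
    refine ⟨⨆ n, (f n).1, ⟨h1, isSuccLimit_iSup (fun n => (f n).1) hb hlt, ?_⟩, hlt 0⟩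
    intro b hb'
    obtain ⟨n, hn⟩ := (lt_ciSup_iff hb).1 hb'
    refine ⟨(f (n + 1)).1, ?_, ?_, hlt _⟩
    · rw [hfs n]; exact hg2 _
    · rw [hfs n]; exact hn.trans (hg1 _)
  · intro l hl hlim h
    refine ⟨hl, hlim, fun β hβ => ?_⟩
    obtain ⟨γ, hγ, h1, h2⟩ := h β hβ
    obtain ⟨d, hd, h3, h4⟩ := hγ.2.2 β h1
    exact ⟨d, hd, h3, h4.trans h2⟩

/-- A stationary subset of `ω₁` can be split into two stationary sets. -/
lemma exists_split {E : Set Ordinal.{0}} (hE : IsStat E) : ∃ A : Ordinal.{0} → Prop,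
    ∀ C, IsClubIn C → (∃ γ ∈ C, γ ∈ E ∧ A γ) ∧ ∃ γ ∈ C, γ ∈ E ∧ ¬ A γ := by
  by_contra hcon
  have hcon' : ∀ A : Ordinal.{0} → Prop, ∃ C, IsClubIn C ∧
      ((∀ γ ∈ C, γ ∈ E → A γ) ∨ ∀ γ ∈ C, γ ∈ E → ¬ A γ) := by
    intro A
    by_contra h
    refine hcon ⟨A, fun C hC => ⟨?_, ?_⟩⟩
    · by_contra h1
      exact h ⟨C, hC, Or.inr fun γ hγ hγE hA => h1 ⟨γ, hγ, hγE, hA⟩⟩
    · by_contra h1
      refine h ⟨C, hC, Or.inl fun γ hγ hγE => ?_⟩
      by_contra hA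
      exact h1 ⟨γ, hγ, hγE, hA⟩
  have hemb : Nonempty (Set.Iio (ω₁ : Ordinal.{0}) ↪ ULift.{1} (Set ℕ)) := by
    rw [← Cardinal.le_def, Cardinal.mk_Iio_ordinal]
    have h1 : (ω₁ : Ordinal.{0}).card = Cardinal.aleph 1 := by simp
    rw [h1, Cardinal.mk_uLift, Cardinal.lift_le, Cardinal.mk_set, Cardinal.mk_nat]
    rw [← Cardinal.succ_aleph0]
    exact Order.succ_le_of_lt (Cardinal.cantor _)
  obtain ⟨e⟩ := hemb
  have hC : ∀ n : ℕ, ∃ C, IsClubIn C ∧ ∃ P : Prop, ∀ γ ∈ C, γ ∈ E → ∀ h : γ < ω₁,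
      (n ∈ (e ⟨γ, h⟩).down ↔ P) := by
    intro n
    obtain ⟨C, hC, h | h⟩ := hcon' (fun γ => ∃ h : γ < ω₁, n ∈ (e ⟨γ, h⟩).down)
    · exact ⟨C, hC, True, fun γ hγ hE _ => iff_true_intro (h γ hγ hE).2⟩
    · exact ⟨C, hC, False, fun γ hγ hE h' => iff_false_intro fun h2 => h γ hγ hE ⟨h', h2⟩⟩
  choose C hC P hP using hC
  obtain ⟨γ, hγ, hγE⟩ := hE _ (club_inter hC)
  have h1 := (hC 0).1 γ (hγ 0)
  obtain ⟨γ', ⟨hγ', hγγ'⟩, hγE'⟩ := hE _ (club_above (club_inter hC) h1)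
  have h2 := (hC 0).1 γ' (hγ' 0)
  have : e ⟨γ, h1⟩ = e ⟨γ', h2⟩ := by
    apply ULift.ext
    ext n
    rw [hP n γ (hγ n) hγE h1, hP n γ' (hγ' n) hγE' h2]
  exact absurd (congrArg Subtype.val (e.injective this)) hγγ'.ne

/-- good partial pairs with the recorded club -/
structure GoodE (T : Set (Ordinal.{0} × (Ordinal.{0} → Ordinal.{0})))
    (S : Ordinal.{0} → (Ordinal.{0} → Ordinal.{0}) → Prop) (A : Ordinal.{0} → Prop)
    (δ : Ordinal.{0}) (u v : Ordinal.{0} → Ordinal.{0}) (D : Set Ordinal.{0}) : Prop where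
  tu : TB T δ u
  tv : TB T δ v
  lt : ∀ d ∈ D, d < δ
  closed : ∀ l < δ, Order.IsSuccLimit l → (∀ β < l, ∃ d ∈ D, β < d ∧ d < l) → l ∈ D
  lev : ∀ d ∈ D, ∀ d', d < d' → (d' ∈ D ∨ d' = δ) →
    (∃ γ, d ≤ γ ∧ γ < d' ∧ S γ (cut u γ)) ∧ ∃ γ, d ≤ γ ∧ γ < d' ∧ S γ (cut v γ)
  bit : ∀ d ∈ D, S d (cut u d) → S d (cut v d) → (u d < v d ↔ A d)
  last : δ = ω₁ → ∀ β < ω₁, ∃ d ∈ D, β < d

lemma goodE_ext {E : Set Ordinal.{0}} {S : Ordinal.{0} → (Ordinal.{0} → Ordinal.{0}) → Prop}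
    (hT : ContPerfect E T S) (A : Ordinal.{0} → Prop) {δ : Ordinal.{0}}
    {u v : Ordinal.{0} → Ordinal.{0}} {D : Set Ordinal.{0}} (hG : GoodE T S A δ u v D)
    (hδ : δ < ω₁) : ∃ δ' u' v', δ < δ' ∧ (∀ β < δ, u' β = u β) ∧ (∀ β < δ, v' β = v β) ∧
      GoodE T S A δ' u' v' (D ∪ {δ}) := by
  have hd : ∀ p ∈ T, ∃ q ∈ T, Ext p q ∧ S q.1 q.2 := by
    intro p hp
    obtain ⟨q, hq, h1, h2, h3⟩ := hT.dense p hp
    refine ⟨q, hq, ⟨h1, fun β hβ => ?_⟩, h3⟩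
    rw [← h2, cut_lt hβ]
  have hpr : ∀ p ∈ T, ∃ q ∈ T, p.1 < q.1 ∧ ∀ β < p.1, q.2 β = p.2 β := by
    intro p hp
    obtain ⟨q, hq, h1, h3⟩ := hd p hp
    obtain ⟨⟨ξ, _, hγ, _⟩, _⟩ := hT.both q.1 q.2 q.2 hq hq h3 h3
    refine ⟨_, hγ, Order.lt_add_one_iff.2 h1.1, fun β hβ => ?_⟩
    change Function.update q.2 q.1 ξ β = _
    rw [Function.update_of_ne (hβ.trans_le h1.1).ne]
    exact h1.2 β hβ
  have hum := hG.tu.mem hδ
  have hvm := hG.tv.mem hδ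
  have hsuc : ∀ w, (δ, w) ∈ T → ∃ w', (δ + 1, w') ∈ T ∧ ∀ β < δ, w' β = w β := by
    intro w hw
    obtain ⟨q, hq, h1, h2⟩ := hpr _ hw
    refine ⟨cut q.2 (δ + 1), hT.tree.down q hq _ (Order.add_one_le_iff.2 h1), fun β hβ => ?_⟩
    rw [cut_lt (hβ.trans (lt_add_one' _))]
    exact h2 β hβ
  obtain ⟨u1, v1, hu1, hv1, hu1a, hv1a, hbit⟩ : ∃ u1 v1, (δ + 1, u1) ∈ T ∧ (δ + 1, v1) ∈ T ∧
      (∀ β < δ, u1 β = u β) ∧ (∀ β < δ, v1 β = v β) ∧
      (S δ u → S δ v → (u1 δ < v1 δ ↔ A δ)) := by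
    by_cases hs : S δ u ∧ S δ v
    · obtain ⟨⟨ξ, ζ, h1, h2, h3⟩, ⟨ξ', ζ', h1', h2', h3'⟩⟩ := hT.both δ u v hum hvm hs.1 hs.2
      by_cases hA : A δ
      · refine ⟨_, _, h1, h2, fun β hβ => Function.update_of_ne hβ.ne _ _,
          fun β hβ => Function.update_of_ne hβ.ne _ _, fun _ _ => ?_⟩
        rw [Function.update_self, Function.update_self]
        simp [hA, h3]
      · refine ⟨_, _, h1', h2', fun β hβ => Function.update_of_ne hβ.ne _ _,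
          fun β hβ => Function.update_of_ne hβ.ne _ _, fun _ _ => ?_⟩
        rw [Function.update_self, Function.update_self]
        simp [hA, h3']
    · obtain ⟨u1, h1, h2⟩ := hsuc u hum
      obtain ⟨v1, h3, h4⟩ := hsuc v hvm
      exact ⟨u1, v1, h1, h3, h2, h4, fun h5 h6 => absurd ⟨h5, h6⟩ hs⟩
  obtain ⟨p, hp, hp1, hp2⟩ := hd _ hu1
  obtain ⟨q, hq, hq1, hq2⟩ := hd _ hv1
  have hm : max (p.1 + 1) (q.1 + 1) < ω₁ := max_lt (add_one_lt_omega_one (hT.tree.node p hp).1)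
    (add_one_lt_omega_one (hT.tree.node q hq).1)
  obtain ⟨u', hu', hu'2⟩ := ext_len hT.tree hpr hp (η := max (p.1 + 1) (q.1 + 1))
    ((lt_add_one' _).le.trans (le_max_left _ _)) hm
  obtain ⟨v', hv', hv'2⟩ := ext_len hT.tree hpr hq (η := max (p.1 + 1) (q.1 + 1))
    ((lt_add_one' _).le.trans (le_max_right _ _)) hm
  have hδp : δ < p.1 := (lt_add_one' _).trans_le hp1.1
  have hδq : δ < q.1 := (lt_add_one' _).trans_le hq1.1
  have hpm : p.1 < max (p.1 + 1) (q.1 + 1) := (lt_add_one' _).trans_le (le_max_left _ _)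
  have hqm : q.1 < max (p.1 + 1) (q.1 + 1) := (lt_add_one' _).trans_le (le_max_right _ _)
  have huδ : ∀ β ≤ δ, u' β = u1 β := fun β hβ =>
    (hu'2.2 β (hβ.trans_lt hδp)).trans (hp1.2 β (Order.lt_add_one_iff.2 hβ))
  have hvδ : ∀ β ≤ δ, v' β = v1 β := fun β hβ =>
    (hv'2.2 β (hβ.trans_lt hδq)).trans (hq1.2 β (Order.lt_add_one_iff.2 hβ))
  have huu : ∀ β < δ, u' β = u β := fun β hβ => (huδ β hβ.le).trans (hu1a β hβ)
  have hvv : ∀ β < δ, v' β = v β := fun β hβ => (hvδ β hβ.le).trans (hv1a β hβ)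
  have hcu : cut u' p.1 = p.2 :=
    (cut_congr hu'2.2).trans (cut_self (hT.tree.node p hp).2.2)
  have hcv : cut v' q.1 = q.2 :=
    (cut_congr hv'2.2).trans (cut_self (hT.tree.node q hq).2.2)
  refine ⟨_, u', v', hδp.trans hpm, huu, hvv, ?_⟩
  refine ⟨tb_of_mem hT.tree hu', tb_of_mem hT.tree hv', ?_, ?_, ?_, ?_, ?_⟩
  · rintro d (hd' | hd')
    · exact (hG.lt d hd').trans (hδp.trans hpm)
    · rw [Set.mem_singleton_iff] at hd'
      rw [hd']; exact hδp.trans hpm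
  · intro l hl hlim h
    rcases lt_trichotomy l δ with h1 | h1 | h1
    · left
      refine hG.closed l h1 hlim fun β hβ => ?_
      obtain ⟨d, hd', h2, h3⟩ := h β hβ
      rcases hd' with hd' | hd'
      · exact ⟨d, hd', h2, h3⟩
      · rw [Set.mem_singleton_iff] at hd'
        rw [hd'] at h3
        exact absurd (h3.trans h1) (lt_irrefl _)
    · right; exact h1
    · obtain ⟨d, hd', h2, _⟩ := h δ h1
      rcases hd' with hd' | hd'
      · exact absurd (h2.trans (hG.lt d hd')) (lt_irrefl _)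
      · rw [Set.mem_singleton_iff] at hd'
        rw [hd'] at h2
        exact absurd h2 (lt_irrefl _)
  · have hold : ∀ d ∈ D, ∀ d', d < d' → d' ≤ δ → (d' ∈ D ∨ d' = δ) →
        (∃ γ, d ≤ γ ∧ γ < d' ∧ S γ (cut u' γ)) ∧ ∃ γ, d ≤ γ ∧ γ < d' ∧ S γ (cut v' γ) := by
      intro d hd' d' hdd hdδ hor
      obtain ⟨⟨γ, h1, h2, h3⟩, ⟨γ', h1', h2', h3'⟩⟩ := hG.lev d hd' d' hdd hor
      refine ⟨⟨γ, h1, h2, ?_⟩, ⟨γ', h1', h2', ?_⟩⟩
      · rw [cut_congr (t := u) (fun β hβ => huu β (hβ.trans (h2.trans_le hdδ)))]; exact h3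
      · rw [cut_congr (t := v) (fun β hβ => hvv β (hβ.trans (h2'.trans_le hdδ)))]; exact h3'
    rintro d (hd' | hd') d' hdd (hd'' | hd'')
    · rcases hd'' with hd'' | hd''
      · exact hold d hd' d' hdd (hG.lt d' hd'').le (Or.inl hd'')
      · exact hold d hd' d' hdd (le_of_eq hd'') (Or.inr hd'')
    · obtain ⟨⟨γ, h1, h2, h3⟩, ⟨γ', h1', h2', h3'⟩⟩ :=
        hold d hd' δ (hG.lt d hd') le_rfl (Or.inr rfl)
      rw [hd'']
      exact ⟨⟨γ, h1, h2.trans (hδp.trans hpm), h3⟩, ⟨γ', h1', h2'.trans (hδp.trans hpm), h3'⟩⟩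
    · rw [Set.mem_singleton_iff] at hd'
      rw [hd'] at hdd
      rcases hd'' with hd'' | hd''
      · exact absurd (hdd.trans (hG.lt d' hd'')) (lt_irrefl _)
      · rw [Set.mem_singleton_iff] at hd''
        rw [hd''] at hdd
        exact absurd hdd (lt_irrefl _)
    · rw [Set.mem_singleton_iff] at hd'
      rw [hd', hd'']
      refine ⟨⟨p.1, hδp.le, hpm, ?_⟩, ⟨q.1, hδq.le, hqm, ?_⟩⟩
      · rw [hcu]; exact hp2
      · rw [hcv]; exact hq2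
  · rintro d (hd' | hd')
    · have hdδ := hG.lt d hd'
      rw [cut_congr (t := u) (fun β hβ => huu β (hβ.trans hdδ)),
        cut_congr (t := v) (fun β hβ => hvv β (hβ.trans hdδ)), huu d hdδ, hvv d hdδ]
      exact hG.bit d hd'
    · rw [Set.mem_singleton_iff] at hd'
      rw [hd', cut_congr (t := u) huu, cut_congr (t := v) hvv, cut_self hG.tu.2.1,
        cut_self hG.tv.2.1, huδ δ le_rfl, hvδ δ le_rfl]
      exact hbit
  · intro h
    exact absurd h hm.ne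

/-- Two branches of a tree continuous on `E` that compare as prescribed on a club in `E`. -/
theorem exists_pairE {E : Set Ordinal.{0}} {S : Ordinal.{0} → (Ordinal.{0} → Ordinal.{0}) → Prop}
    (hT : ContPerfect E T S) (A : Ordinal.{0} → Prop) : ∃ x ∈ branches T, ∃ y ∈ branches T,
      ∃ C, IsClubIn C ∧ ∀ γ ∈ C, γ ∈ E → (x γ < y γ ↔ A γ) := by
  classical
  obtain ⟨p0, hp0⟩ := hT.tree.nonempty
  let Q := {q : Ordinal.{0} × (Ordinal.{0} → Ordinal.{0}) × (Ordinal.{0} → Ordinal.{0}) ×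
    Set Ordinal.{0} // GoodE T S A q.1 q.2.1 q.2.2.1 q.2.2.2}
  let r : Q → Q → Prop := fun a b => a = b ∨ (a.1.1 < b.1.1 ∧
    (∀ β < a.1.1, b.1.2.1 β = a.1.2.1 β) ∧ (∀ β < a.1.1, b.1.2.2.1 β = a.1.2.2.1 β) ∧
    (∀ β < a.1.1, β ∈ b.1.2.2.2 ↔ β ∈ a.1.2.2.2) ∧ a.1.1 ∈ b.1.2.2.2)
  obtain ⟨m, hm⟩ := exists_maximal_of_chains_bounded (r := r)
    (by
      intro c hc
      by_cases hne : c.Nonempty
      swap
      · refine ⟨⟨(0, cut p0.2 0, cut p0.2 0, ∅), ?_⟩, fun a ha => absurd ⟨a, ha⟩ hne⟩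
        have h0 : TB T 0 (cut p0.2 0) := tb_of_mem hT.tree (hT.tree.down p0 hp0 0 zero_le)
        exact ⟨h0, h0, fun d hd => absurd hd (Set.notMem_empty d),
          fun l hl => absurd hl not_lt_zero, fun d hd => absurd hd (Set.notMem_empty d),
          fun d hd => absurd hd (Set.notMem_empty d),
          fun h => absurd h (Ordinal.omega_pos 1).ne⟩
      have hcr : ∀ a ∈ c, ∀ b ∈ c, r a b ∨ r b a := by
        intro a ha b hb
        by_cases he : a = b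
        · exact Or.inl (Or.inl he)
        · exact hc ha hb he
      by_cases hmax : ∃ m ∈ c, ∀ a ∈ c, a.1.1 ≤ m.1.1
      · obtain ⟨m, hm, hm2⟩ := hmax
        refine ⟨m, fun a ha => ?_⟩
        rcases hcr a ha m hm with h | h
        · exact h
        · rcases h with h | h
          · exact Or.inl h.symm
          · exact absurd h.1 (not_lt.2 (hm2 a ha))
      · push Not at hmax
        have : Nonempty c := hne.to_subtype
        have hlt : ∀ i j : c, i.1.1.1 < j.1.1.1 → (∀ β < i.1.1.1, j.1.1.2.1 β = i.1.1.2.1 β) ∧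
            (∀ β < i.1.1.1, j.1.1.2.2.1 β = i.1.1.2.2.1 β) ∧
            (∀ β < i.1.1.1, β ∈ j.1.1.2.2.2 ↔ β ∈ i.1.1.2.2.2) ∧ i.1.1.1 ∈ j.1.1.2.2.2 := by
          intro i j hij
          rcases hcr i.1 i.2 j.1 j.2 with h | h
          · rcases h with h | h
            · rw [h] at hij; exact absurd hij (lt_irrefl _)
            · exact h.2
          · rcases h with h | h
            · rw [h] at hij; exact absurd hij (lt_irrefl _)
            · exact absurd (h.1.trans hij) (lt_irrefl _)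
        have heq : ∀ i j : c, i.1.1.1 = j.1.1.1 → i = j := by
          intro i j hij
          rcases hcr i.1 i.2 j.1 j.2 with h | h
          · rcases h with h | h
            · exact Subtype.ext h
            · exact absurd hij h.1.ne
          · rcases h with h | h
            · exact (Subtype.ext h).symm
            · exact absurd hij h.1.ne'
        have hch : ∀ i j : c, i.1.1.1 ≤ j.1.1.1 → (∀ β < i.1.1.1, j.1.1.2.1 β = i.1.1.2.1 β) ∧
            (∀ β < i.1.1.1, j.1.1.2.2.1 β = i.1.1.2.2.1 β) ∧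
            (∀ β < i.1.1.1, β ∈ j.1.1.2.2.2 ↔ β ∈ i.1.1.2.2.2) := by
          intro i j hij
          rcases hij.lt_or_eq with h | h
          · exact ⟨(hlt i j h).1, (hlt i j h).2.1, (hlt i j h).2.2.1⟩
          · rw [heq i j h]
            exact ⟨fun _ _ => rfl, fun _ _ => rfl, fun _ _ => Iff.rfl⟩
        obtain ⟨u, hu, hu2⟩ := union_TB hT.tree (fun i : c => i.1.1.1) (fun i : c => i.1.1.2.1)
          (fun i => i.1.2.tu) (fun i j h => (hch i j h).1)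
        obtain ⟨v, hv, hv2⟩ := union_TB hT.tree (fun i : c => i.1.1.1) (fun i : c => i.1.1.2.2.1)
          (fun i => i.1.2.tv) (fun i j h => (hch i j h).2.1)
        have hb : BddAbove (Set.range (fun i : c => i.1.1.1)) :=
          ⟨ω₁, by rintro _ ⟨i, rfl⟩; exact i.1.2.tu.1⟩
        have hnext : ∀ i : c, ∃ j : c, i.1.1.1 < j.1.1.1 := by
          intro i
          obtain ⟨a, ha, h⟩ := hmax i.1 i.2
          exact ⟨⟨a, ha⟩, h⟩
        have hilt : ∀ i : c, i.1.1.1 < ⨆ i : c, i.1.1.1 := fun i => by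
          obtain ⟨j, hj⟩ := hnext i
          exact hj.trans_le (le_ciSup hb j)
        set D : Set Ordinal.{0} := {d | ∃ i : c, d ∈ i.1.1.2.2.2} with hD
        have hDi : ∀ i : c, ∀ β < i.1.1.1, (β ∈ D ↔ β ∈ i.1.1.2.2.2) := by
          intro i β hβ
          constructor
          · rintro ⟨j, hj⟩
            rcases le_total i.1.1.1 j.1.1.1 with h | h
            · exact ((hch i j h).2.2 β hβ).1 hj
            · exact ((hch j i h).2.2 β (j.1.2.lt β hj)).2 hj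
          · intro h
            exact ⟨i, h⟩
        have hself : ∀ i : c, i.1.1.1 ∈ D := fun i => by
          obtain ⟨j, hj⟩ := hnext i
          exact ⟨j, (hlt i j hj).2.2.2⟩
        refine ⟨⟨(⨆ i : c, i.1.1.1, u, v, D), ⟨hu, hv, ?_, ?_, ?_, ?_, ?_⟩⟩, ?_⟩
        · rintro d ⟨i, hi⟩
          exact (i.1.2.lt d hi).trans (hilt i)
        · intro l hl hlim h
          obtain ⟨i, hi⟩ := (lt_ciSup_iff hb).1 hl
          refine (hDi i l hi).2 (i.1.2.closed l hi hlim fun β hβ => ?_)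
          obtain ⟨d, hd, h1, h2⟩ := h β hβ
          exact ⟨d, (hDi i d (h2.trans hi)).1 hd, h1, h2⟩
        · have hold : ∀ i : c, ∀ d ∈ i.1.1.2.2.2, ∀ d', d < d' → (d' ∈ i.1.1.2.2.2 ∨ d' = i.1.1.1) →
              (∃ γ, d ≤ γ ∧ γ < d' ∧ S γ (cut u γ)) ∧ ∃ γ, d ≤ γ ∧ γ < d' ∧ S γ (cut v γ) := by
            intro i d hi d' hdd hor
            have hle : d' ≤ i.1.1.1 := by
              rcases hor with h | h
              · exact (i.1.2.lt d' h).le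
              · exact le_of_eq h
            obtain ⟨⟨γ, h1, h2, h3⟩, ⟨γ', h1', h2', h3'⟩⟩ := i.1.2.lev d hi d' hdd hor
            refine ⟨⟨γ, h1, h2, ?_⟩, ⟨γ', h1', h2', ?_⟩⟩
            · rw [cut_congr (t := i.1.1.2.1) (fun β hβ => hu2 i β (hβ.trans (h2.trans_le hle)))]
              exact h3
            · rw [cut_congr (t := i.1.1.2.2.1)
                (fun β hβ => hv2 i β (hβ.trans (h2'.trans_le hle)))]
              exact h3'
          rintro d ⟨i, hi⟩ d' hdd (⟨j, hj⟩ | hd')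
          · exact hold j d ((hDi j d (hdd.trans (j.1.2.lt d' hj))).1 ⟨i, hi⟩) d' hdd (Or.inl hj)
          · obtain ⟨⟨γ, h1, h2, h3⟩, ⟨γ', h1', h2', h3'⟩⟩ :=
              hold i d hi i.1.1.1 (i.1.2.lt d hi) (Or.inr rfl)
            rw [hd']
            exact ⟨⟨γ, h1, h2.trans (hilt i), h3⟩, ⟨γ', h1', h2'.trans (hilt i), h3'⟩⟩
        · rintro d ⟨i, hi⟩
          have hdi := i.1.2.lt d hi
          change S d (cut u d) → S d (cut v d) → (u d < v d ↔ A d)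
          rw [cut_congr (t := i.1.1.2.1) (fun β hβ => hu2 i β (hβ.trans hdi)),
            cut_congr (t := i.1.1.2.2.1) (fun β hβ => hv2 i β (hβ.trans hdi)),
            hu2 i d hdi, hv2 i d hdi]
          exact i.1.2.bit d hi
        · intro h β hβ
          change (⨆ i : c, i.1.1.1) = ω₁ at h
          rw [← h] at hβ
          obtain ⟨i, hi⟩ := (lt_ciSup_iff hb).1 hβ
          exact ⟨_, hself i, hi⟩
        · intro a ha
          right
          exact ⟨hilt ⟨a, ha⟩, fun β hβ => hu2 ⟨a, ha⟩ β hβ, fun β hβ => hv2 ⟨a, ha⟩ β hβ,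
            fun β hβ => hDi ⟨a, ha⟩ β hβ, hself ⟨a, ha⟩⟩)
    (by
      intro a b c h h'
      rcases h with rfl | h
      · exact h'
      rcases h' with rfl | h'
      · exact Or.inr h
      right
      refine ⟨h.1.trans h'.1, fun β hβ => (h'.2.1 β (hβ.trans h.1)).trans (h.2.1 β hβ),
        fun β hβ => (h'.2.2.1 β (hβ.trans h.1)).trans (h.2.2.1 β hβ),
        fun β hβ => (h'.2.2.2.1 β (hβ.trans h.1)).trans (h.2.2.2.1 β hβ), ?_⟩
      exact (h'.2.2.2.1 _ h.1).2 h.2.2.2.2)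
  obtain ⟨⟨δ, u, v, D⟩, hG⟩ := m
  have hδ : δ = ω₁ := by
    by_contra hne
    have hδ1 : δ < ω₁ := lt_of_le_of_ne hG.tu.1 hne
    obtain ⟨δ', u', v', h1, h2, h3, h4⟩ := goodE_ext hT A hG hδ1
    have h5 := hm ⟨(δ', u', v', D ∪ {δ}), h4⟩ (Or.inr ⟨h1, h2, h3, fun β hβ => ⟨fun h => by
      rcases h with h | h
      · exact h
      · exact absurd (Set.mem_singleton_iff.1 h) (ne_of_lt hβ), fun h => Or.inl h⟩, Or.inr rfl⟩)
    rcases h5 with h5 | h5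
    · have := congrArg (fun z : Q => z.1.1) h5
      exact absurd this h1.ne'
    · exact absurd (h1.trans h5.1) (lt_irrefl _)
  subst hδ
  refine ⟨u, hG.tu.branch hT.tree, v, hG.tv.branch hT.tree,
    _, club_limits hG.lt (hG.last rfl), ?_⟩
  rintro γ ⟨hγ1, hlim, hγ⟩ hγE
  have hlev : ∀ β < γ, (∃ κ, β ≤ κ ∧ κ < γ ∧ S κ (cut u κ)) ∧
      ∃ κ, β ≤ κ ∧ κ < γ ∧ S κ (cut v κ) := by
    intro β hβ
    obtain ⟨d, hd, h1, h2⟩ := hγ β hβ
    obtain ⟨d', hd', h1', h2'⟩ := hγ d h2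
    obtain ⟨⟨κ, h3, h4, h5⟩, ⟨κ', h3', h4', h5'⟩⟩ := hG.lev d hd d' h1' (Or.inl hd')
    exact ⟨⟨κ, h1.le.trans h3, h4.trans h2', h5⟩, ⟨κ', h1.le.trans h3', h4'.trans h2', h5'⟩⟩
  refine hG.bit γ (hG.closed γ hγ1 hlim hγ) ?_ ?_
  · refine hT.cont γ hγE _ (hG.tu.2.2 γ hγ1.le hγ1) hlim fun β hβ => ?_
    obtain ⟨⟨κ, h3, h4, h5⟩, _⟩ := hlev β hβ
    exact ⟨κ, h3, h4, by rw [cut_cut h4.le]; exact h5⟩
  · refine hT.cont γ hγE _ (hG.tv.2.2 γ hγ1.le hγ1) hlim fun β hβ => ?_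
    obtain ⟨_, ⟨κ, h3, h4, h5⟩⟩ := hlev β hβ
    exact ⟨κ, h3, h4, by rw [cut_cut h4.le]; exact h5⟩

/-- The comparison set of two functions of an inner model is in the inner model. -/
lemma cmp_mem {M : Set ZFSet.{0}} (hM : IsInner M) {x y : Ordinal.{0} → Ordinal.{0}} (hx : IsPt x)
    (hy : IsPt y) (hxM : graph x ∈ M) (hyM : graph y ∈ M) : subs (fun γ => x γ < y γ) ∈ M := by
  set W : ZFSet.{0} := (ω₁ : Ordinal.{0}).toZFSet with hW
  have hWM : W ∈ M := hM.ord _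
  have hfin : ZFSet.sep (fun g => ∃ a ∈ W, ∃ b ∈ W,
      ZFSet.pair g a ∈ graph x ∧ ZFSet.pair g b ∈ graph y ∧ a ∈ b) W ∈ M := by
    have hdd : DD M (fun v => ∃ a ∈ v 1, ∃ b ∈ v 1,
        ZFSet.pair (v 0) a ∈ v 2 ∧ ZFSet.pair (v 0) b ∈ v 3 ∧ a ∈ b) := by
      refine DD.bex hM 11 1 (by decide) (P := fun v a => ∃ b ∈ v 1,
        ZFSet.pair (v 0) a ∈ v 2 ∧ ZFSet.pair (v 0) b ∈ v 3 ∧ a ∈ b) ?_ ?_
      · refine DD.bex hM 12 1 (by decide) (P := fun v b =>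
          ZFSet.pair (v 0) (v 11) ∈ v 2 ∧ ZFSet.pair (v 0) b ∈ v 3 ∧ v 11 ∈ b) ?_ ?_
        · exact (DD.pairMem hM 0 11 2).and ((DD.pairMem hM 0 12 3).and (DD.mem 11 12))
        · intro v a b; simp
      · intro v a b; simp
    exact sep_mem hM hdd [W, graph x, graph y] (by simp [hWM, hxM, hyM]) hWM
      (fun b _ => Iff.rfl)
  convert hfin using 1
  ext z
  rw [mem_subs, ZFSet.mem_sep]
  constructor
  · rintro ⟨γ, hγ, h, rfl⟩
    exact ⟨Ordinal.toZFSet_mem_toZFSet_iff.2 hγ, (x γ).toZFSet,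
      Ordinal.toZFSet_mem_toZFSet_iff.2 (hx.1 γ hγ), (y γ).toZFSet,
      Ordinal.toZFSet_mem_toZFSet_iff.2 (hy.1 γ hγ), (pair_mem_graph hx).2 ⟨hγ, rfl⟩,
      (pair_mem_graph hy).2 ⟨hγ, rfl⟩, Ordinal.toZFSet_mem_toZFSet_iff.2 h⟩
  · rintro ⟨hz, a, ha, b, hb, hga, hgb, hab⟩
    obtain ⟨γ, hγ, rfl⟩ := Ordinal.mem_toZFSet_iff.1 hz
    obtain ⟨α, hα, rfl⟩ := Ordinal.mem_toZFSet_iff.1 ha
    obtain ⟨β, hβ, rfl⟩ := Ordinal.mem_toZFSet_iff.1 hb
    rw [pair_mem_graph hx] at hga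
    rw [pair_mem_graph hy] at hgb
    rw [Ordinal.toZFSet_mem_toZFSet_iff, ← hga.2, ← hgb.2] at hab
    exact ⟨γ, hγ, hab, rfl⟩

lemma toZFSet_mem_subs {A : Ordinal.{0} → Prop} {γ : Ordinal.{0}} (hγ : γ < ω₁) :
    γ.toZFSet ∈ subs A ↔ A γ := by
  rw [mem_subs]
  constructor
  · rintro ⟨β, _, h, h'⟩
    rwa [Ordinal.toZFSet_injective h']
  · intro h
    exact ⟨γ, hγ, h, rfl⟩

end Pool.Agent.Helper66.PLR
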