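import Pool.Agent.Helper66.PLR.Defs

open Ordinal

namespace Pool.Agent.Helper66.PLR

lemma countable_Iio {a : Ordinal.{0}} (ha : a < ω₁) : Countable (Set.Iio a) := by
  rw [← Cardinal.mk_le_aleph0_iff, Cardinal.mk_Iio_ordinal]
  rw [← Cardinal.ord_aleph, Cardinal.lt_ord] at ha
  have : a.card ≤ Cardinal.aleph0 := by
    rw [← Order.lt_succ_iff, Cardinal.succ_aleph0]
    exact ha
  rw [← Cardinal.lift_le_aleph0.{0, 1}] at this
  simpa using this

lemma add_one_lt_omega_one {a : Ordinal.{0}} (ha : a < ω₁) : a + 1 < ω₁ :=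
  by
  rw [← Cardinal.ord_aleph] at ha ⊢
  exact (Cardinal.isSuccLimit_ord (Cardinal.aleph0_le_aleph 1)).add_one_lt ha

lemma exists_bound {a : Ordinal.{0}} (ha : a < ω₁) (u : Ordinal.{0} → Ordinal.{0})
    (hu : ∀ β < a, u β < ω₁) : ∃ μ < ω₁, ∀ β < a, u β < μ := by
  have := countable_Iio ha
  refine ⟨(⨆ b : Set.Iio a, u b) + 1, ?_, ?_⟩
  · apply add_one_lt_omega_one
    exact Ordinal.iSup_lt_omega_one (fun i => hu i i.2)
  · intro β hβ
    rw [Order.lt_add_one_iff]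
    have hb : BddAbove (Set.range (fun b : Set.Iio a => u b)) :=
      ⟨ω₁, by rintro _ ⟨i, rfl⟩; exact (hu i i.2).le⟩
    exact le_ciSup hb (⟨β, hβ⟩ : Set.Iio a)

/-- `q` extends `p`. -/
def Ext (p q : Ordinal.{0} × (Ordinal.{0} → Ordinal.{0})) : Prop :=
  p.1 ≤ q.1 ∧ ∀ β < p.1, q.2 β = p.2 β

lemma Ext.refl (p : Ordinal.{0} × (Ordinal.{0} → Ordinal.{0})) : Ext p p := ⟨le_rfl, fun _ _ => rfl⟩

lemma Ext.trans {p q r : Ordinal.{0} × (Ordinal.{0} → Ordinal.{0})} (h : Ext p q) (h' : Ext q r) :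
    Ext p r :=
  ⟨h.1.trans h'.1, fun β hβ => (h'.2 β (hβ.trans_le h.1)).trans (h.2 β hβ)⟩

lemma cut_lt {s : Ordinal.{0} → Ordinal.{0}} {α β : Ordinal.{0}} (h : β < α) : cut s α β = s β := by
  simp [cut, h]

lemma cut_ge {s : Ordinal.{0} → Ordinal.{0}} {α β : Ordinal.{0}} (h : α ≤ β) : cut s α β = 0 := by
  simp [cut, not_lt.2 h]

lemma cut_congr {s t : Ordinal.{0} → Ordinal.{0}} {α : Ordinal.{0}} (h : ∀ β < α, s β = t β) :
    cut s α = cut t α := by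
  funext β
  by_cases hβ : β < α
  · rw [cut_lt hβ, cut_lt hβ, h β hβ]
  · rw [cut_ge (not_lt.1 hβ), cut_ge (not_lt.1 hβ)]

lemma cut_cut {s : Ordinal.{0} → Ordinal.{0}} {α β : Ordinal.{0}} (h : β ≤ α) :
    cut (cut s α) β = cut s β :=
  cut_congr fun _ hγ => cut_lt (hγ.trans_le h)

lemma cut_self {s : Ordinal.{0} → Ordinal.{0}} {α : Ordinal.{0}} (h : ∀ β, α ≤ β → s β = 0) :
    cut s α = s := by
  funext β
  by_cases hβ : β < α
  · rw [cut_lt hβ]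
  · rw [cut_ge (not_lt.1 hβ), h β (not_lt.1 hβ)]

/-- `(δ, u)` is a node of `T` or (for `δ = ω₁`) a branch of `T`. -/
def TB (T : Set (Ordinal.{0} × (Ordinal.{0} → Ordinal.{0}))) (δ : Ordinal.{0})
    (u : Ordinal.{0} → Ordinal.{0}) : Prop :=
  δ ≤ ω₁ ∧ (∀ β, δ ≤ β → u β = 0) ∧ ∀ α ≤ δ, α < ω₁ → (α, cut u α) ∈ T

variable {T : Set (Ordinal.{0} × (Ordinal.{0} → Ordinal.{0}))}

lemma tb_of_mem (hT : ClosedTree T) {p : Ordinal.{0} × (Ordinal.{0} → Ordinal.{0})} (hp : p ∈ T) :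
    TB T p.1 p.2 :=
  ⟨(hT.node p hp).1.le, (hT.node p hp).2.2, fun α hα _ => hT.down p hp α hα⟩

lemma TB.mem {δ : Ordinal.{0}} {u : Ordinal.{0} → Ordinal.{0}} (h : TB T δ u) (hδ : δ < ω₁) :
    (δ, u) ∈ T := by
  have := h.2.2 δ le_rfl hδ
  rwa [cut_self h.2.1] at this

lemma TB.branch (hT : ClosedTree T) {u : Ordinal.{0} → Ordinal.{0}} (h : TB T ω₁ u) :
    u ∈ branches T := by
  refine ⟨⟨fun β hβ => ?_, h.2.1⟩, fun α hα => h.2.2 α hα.le hα⟩
  have h1 := (hT.node _ (h.2.2 (β + 1) (add_one_lt_omega_one hβ).le (add_one_lt_omega_one hβ))).2.1 β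
    (Order.lt_add_one_iff.2 le_rfl)
  change cut u (β + 1) β < ω₁ at h1
  rwa [cut_lt (Order.lt_add_one_iff.2 le_rfl)] at h1

lemma union_TB (hT : ClosedTree T) {ι : Type*} [Nonempty ι] (L : ι → Ordinal.{0})
    (U : ι → Ordinal.{0} → Ordinal.{0}) (hTB : ∀ i, TB T (L i) (U i))
    (hch : ∀ i j, L i ≤ L j → ∀ β < L i, U j β = U i β) :
    ∃ u, TB T (⨆ i, L i) u ∧ ∀ i, ∀ β < L i, u β = U i β := by
  classical
  have hb : BddAbove (Set.range L) := ⟨ω₁, by rintro _ ⟨i, rfl⟩; exact (hTB i).1⟩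
  set u : Ordinal.{0} → Ordinal.{0} := fun β => if h : ∃ i, β < L i then U h.choose β else 0 with hu
  have hul : ∀ i, ∀ β < L i, u β = U i β := by
    intro i β hβ
    have h : ∃ i, β < L i := ⟨i, hβ⟩
    have e : u β = U h.choose β := by simp only [hu]; rw [dif_pos h]
    rw [e]
    rcases le_total (L i) (L h.choose) with h1 | h1
    · exact hch i _ h1 β hβ
    · exact (hch _ i h1 β h.choose_spec).symm
  refine ⟨u, ⟨ciSup_le' (fun i => (hTB i).1), ?_, ?_⟩, hul⟩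
  · intro β hβ
    have h : ¬ ∃ i, β < L i := by
      rintro ⟨i, hi⟩
      exact absurd (hi.trans_le (le_ciSup hb i)) (not_lt.2 hβ)
    simp only [hu]
    rw [dif_neg h]
  · intro α hα hα1
    by_cases h : ∃ i, α ≤ L i
    · obtain ⟨i, hi⟩ := h
      rw [cut_congr (t := U i) (fun β hβ => hul i β (hβ.trans_le hi))]
      exact (hTB i).2.2 α hi hα1
    · push Not at h
      have hlt : ∀ b < α, ∃ i, b < L i := by
        intro b hb'
        exact (lt_ciSup_iff hb).1 (hb'.trans_le hα)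
      have hlim : Order.IsSuccLimit α := by
        refine ⟨?_, ?_⟩
        · intro hmin
          obtain ⟨i⟩ := ‹Nonempty ι›
          exact absurd (hmin (h i).le) (not_le.2 (h i))
        · intro b hcov
          obtain ⟨i, hi⟩ := hlt b hcov.lt
          exact hcov.2 hi (h i)
      refine hT.closed α (cut u α) hα1 hlim (fun β hβ => cut_ge hβ) ?_
      intro β hβ
      obtain ⟨i, hi⟩ := hlt β hβ
      rw [cut_cut hβ.le, cut_congr (t := U i) (fun γ hγ => hul i γ (hγ.trans hi))]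
      exact (hTB i).2.2 β hi.le (hβ.trans hα1)

/-- Every node extends to nodes of any length. -/
lemma ext_len (hT : ClosedTree T)
    (hpr : ∀ p ∈ T, ∃ q ∈ T, p.1 < q.1 ∧ ∀ β < p.1, q.2 β = p.2 β)
    {p : Ordinal.{0} × (Ordinal.{0} → Ordinal.{0})} (hp : p ∈ T) {η : Ordinal.{0}}
    (hη : p.1 ≤ η) (hη1 : η < ω₁) : ∃ t, (η, t) ∈ T ∧ Ext p (η, t) := by
  classical
  let S := {q : Ordinal.{0} × (Ordinal.{0} → Ordinal.{0}) // q ∈ T ∧ Ext p q ∧ q.1 ≤ η}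
  obtain ⟨m, hm⟩ := exists_maximal_of_chains_bounded (r := fun a b : S => Ext a.1 b.1)
    (by
      intro c hc
      by_cases hne : c.Nonempty
      · have : Nonempty c := hne.to_subtype
        have hch : ∀ i j : c, i.1.1.1 ≤ j.1.1.1 → ∀ β < i.1.1.1, j.1.1.2 β = i.1.1.2 β := by
          intro i j hij β hβ
          by_cases he : i = j
          · rw [he]
          · rcases hc i.2 j.2 (fun h => he (Subtype.ext h)) with h | h
            · exact h.2 β hβ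
            · exact (h.2 β (hβ.trans_le hij)).symm
        obtain ⟨u, hu, hu2⟩ := union_TB hT (fun i : c => i.1.1.1) (fun i : c => i.1.1.2)
          (fun i => tb_of_mem hT i.1.2.1) hch
        have hle : (⨆ i : c, i.1.1.1) ≤ η := ciSup_le' (fun i => i.1.2.2.2)
        have hb : BddAbove (Set.range (fun i : c => i.1.1.1)) :=
          ⟨η, by rintro _ ⟨i, rfl⟩; exact i.1.2.2.2⟩
        obtain ⟨i0⟩ := this
        refine ⟨⟨(⨆ i : c, i.1.1.1, u), hu.mem (hle.trans_lt hη1), ?_, hle⟩, ?_⟩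
        · refine ⟨i0.1.2.2.1.1.trans (le_ciSup hb i0), fun β hβ => ?_⟩
          rw [← i0.1.2.2.1.2 β hβ]
          exact hu2 i0 β (hβ.trans_le i0.1.2.2.1.1)
        · intro a ha
          exact ⟨le_ciSup hb ⟨a, ha⟩, fun β hβ => hu2 ⟨a, ha⟩ β hβ⟩
      · refine ⟨⟨p, hp, Ext.refl p, hη⟩, fun a ha => ?_⟩
        exact absurd ⟨a, ha⟩ hne)
    (fun h h' => Ext.trans h h')
  by_cases he : m.1.1 = η
  · have he2 : (m.1.1, m.1.2) = (η, m.1.2) := by rw [he]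
    exact ⟨m.1.2, he2 ▸ m.2.1, he2 ▸ m.2.2.1⟩
  · have hlt : m.1.1 < η := lt_of_le_of_ne m.2.2.2 he
    obtain ⟨q, hq, hq1, hq2⟩ := hpr m.1 m.2.1
    have hmem : (m.1.1 + 1, cut q.2 (m.1.1 + 1)) ∈ T := hT.down q hq _ (Order.add_one_le_iff.2 hq1)
    have hext : Ext m.1 (m.1.1 + 1, cut q.2 (m.1.1 + 1)) := by
      refine ⟨(Order.lt_add_one_iff.2 le_rfl).le, fun β hβ => ?_⟩
      have hβ' : β < m.1.1 + 1 := Order.lt_add_one_iff.2 hβ.le
      change cut q.2 (m.1.1 + 1) β = _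
      rw [cut_lt hβ', hq2 β hβ]
    have := hm ⟨_, hmem, m.2.2.1.trans hext, Order.add_one_le_iff.2 hlt⟩ hext
    exact absurd this.1 (not_le.2 (Order.lt_add_one_iff.2 le_rfl))

/-- Every node extends to arbitrarily long nodes satisfying `S`. -/
lemma ext_split (hT : ClosedTree T) {S : Ordinal.{0} → (Ordinal.{0} → Ordinal.{0}) → Prop}
    (hS : ∀ p ∈ T, ∃ q ∈ T, p.1 ≤ q.1 ∧ cut q.2 p.1 = p.2 ∧ S q.1 q.2)
    (hSs : ∀ p ∈ T, S p.1 p.2 → ∃ γ, (p.1 + 1, Function.update p.2 p.1 γ) ∈ T)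
    {p : Ordinal.{0} × (Ordinal.{0} → Ordinal.{0})} (hp : p ∈ T) {η : Ordinal.{0}}
    (hη1 : η < ω₁) : ∃ q ∈ T, Ext p q ∧ η < q.1 ∧ S q.1 q.2 := by
  have hd : ∀ p ∈ T, ∃ q ∈ T, Ext p q ∧ S q.1 q.2 := by
    intro p hp
    obtain ⟨q, hq, h1, h2, h3⟩ := hS p hp
    refine ⟨q, hq, ⟨h1, fun β hβ => ?_⟩, h3⟩
    rw [← h2, cut_lt hβ]
  have hpr : ∀ p ∈ T, ∃ q ∈ T, p.1 < q.1 ∧ ∀ β < p.1, q.2 β = p.2 β := by
    intro p hp
    obtain ⟨q, hq, h1, h3⟩ := hd p hp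
    obtain ⟨γ, hγ⟩ := hSs q hq h3
    refine ⟨_, hγ, Order.lt_add_one_iff.2 h1.1, fun β hβ => ?_⟩
    change Function.update q.2 q.1 γ β = _
    rw [Function.update_of_ne (hβ.trans_le h1.1).ne]
    exact h1.2 β hβ
  obtain ⟨t, ht, ht2⟩ := ext_len hT hpr hp (η := max p.1 (η + 1)) (le_max_left _ _)
    (max_lt (hT.node p hp).1 (add_one_lt_omega_one hη1))
  obtain ⟨q, hq, h1, h3⟩ := hd _ ht
  refine ⟨q, hq, ht2.trans h1, ?_, h3⟩
  exact (Order.lt_add_one_iff.2 le_rfl).trans_le ((le_max_right _ _).trans h1.1)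

end Pool.Agent.Helper66.PLR
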