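import Mathlib

/-!
# Perfect subsets of the generalized Baire space inside `L(ℝ)`: definitions

An element of `^{ω₁}ω₁` is a function `x : Ordinal → Ordinal` with `x β < ω₁` for `β < ω₁` and
`x β = 0` for `β ≥ ω₁` (`IsPt`).  An element of `^{<ω₁}ω₁` is a pair `(α, s)`, `α < ω₁` its
length, `s : Ordinal → Ordinal` with `s β < ω₁` for `β < α` and `s β = 0` for `β ≥ α` (`IsNode`).
-/

open Ordinal

namespace Pool.Agent.Helper66.PLR

/-- `x` is (codes) a function from `ω₁` to `ω₁`. -/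
def IsPt (x : Ordinal.{0} → Ordinal.{0}) : Prop :=
  (∀ β < ω₁, x β < ω₁) ∧ ∀ β, ω₁ ≤ β → x β = 0

/-- The restriction `s ↾ α`. -/
noncomputable def cut (s : Ordinal.{0} → Ordinal.{0}) (α : Ordinal.{0}) :
    Ordinal.{0} → Ordinal.{0} :=
  fun β => if β < α then s β else 0

/-- `p = (α, s)` is (codes) a sequence `s : α → ω₁` with `α < ω₁`. -/
def IsNode (p : Ordinal.{0} × (Ordinal.{0} → Ordinal.{0})) : Prop :=
  p.1 < ω₁ ∧ (∀ β < p.1, p.2 β < ω₁) ∧ ∀ β, p.1 ≤ β → p.2 β = 0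

/-- A nonempty `<ω₁`-closed subtree of `^{<ω₁}ω₁`: closed under initial segments, and a sequence
of countable limit length all of whose proper initial segments are in `T` is in `T`. -/
structure ClosedTree (T : Set (Ordinal.{0} × (Ordinal.{0} → Ordinal.{0}))) : Prop where
  nonempty : T.Nonempty
  node : ∀ p ∈ T, IsNode p
  down : ∀ p ∈ T, ∀ β ≤ p.1, (β, cut p.2 β) ∈ T
  closed : ∀ (l : Ordinal.{0}) (s : Ordinal.{0} → Ordinal.{0}), l < ω₁ → Order.IsSuccLimit l →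
    (∀ β, l ≤ β → s β = 0) → (∀ β < l, (β, cut s β) ∈ T) → (l, s) ∈ T

/-- The set `[T]` of all `x : ω₁ → ω₁` whose proper initial segments are all in `T`. -/
def branches (T : Set (Ordinal.{0} × (Ordinal.{0} → Ordinal.{0}))) :
    Set (Ordinal.{0} → Ordinal.{0}) :=
  {x | IsPt x ∧ ∀ α < ω₁, (α, cut x α) ∈ T}

/-- The node `(α, s)` of `T` is `ω₁`-splitting: its immediate successors `s ⌢ γ` in `T` have
unboundedly many values `γ < ω₁`. -/
def Splits (T : Set (Ordinal.{0} × (Ordinal.{0} → Ordinal.{0}))) (α : Ordinal.{0})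
    (s : Ordinal.{0} → Ordinal.{0}) : Prop :=
  ∀ ξ < ω₁, ∃ γ, ξ ≤ γ ∧ γ < ω₁ ∧ (α + 1, Function.update s α γ) ∈ T

/-- `T` is an `ω₁`-Miller tree with delay `h : ω₁ → ω₁`: a `<ω₁`-closed subtree of `^{<ω₁}ω₁` in
which every node extends to an `ω₁`-splitting node, and every node `(l, s)` of `T` such that the
limit ordinal `l` is closed under `h` and `s` has cofinally many `ω₁`-splitting initial segments
has an `ω₁`-splitting extension `q` in `T` of length less than `h l`, whose values at the places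
`β ≥ l` are less than `h l`. -/
structure IsMiller (h : Ordinal.{0} → Ordinal.{0})
    (T : Set (Ordinal.{0} × (Ordinal.{0} → Ordinal.{0}))) : Prop where
  tree : ClosedTree T
  dense : ∀ p ∈ T, ∃ q ∈ T, p.1 ≤ q.1 ∧ cut q.2 p.1 = p.2 ∧ Splits T q.1 q.2
  delay : ∀ (l : Ordinal.{0}) (s : Ordinal.{0} → Ordinal.{0}), (l, s) ∈ T →
    Order.IsSuccLimit l → (∀ β < l, h β < l) →
    (∀ β < l, ∃ γ, β ≤ γ ∧ γ < l ∧ Splits T γ (cut s γ)) →
    ∃ q ∈ T, l ≤ q.1 ∧ q.1 < h l ∧ cut q.2 l = s ∧ Splits T q.1 q.2 ∧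
      ∀ β, l ≤ β → β < q.1 → q.2 β < h l

/-- First order definable relations over `(M, ∈)`, as predicates on assignments of the variables
`v 0, v 1, …`; the quantifiers range over `M`. -/
inductive Dfn (M : Set ZFSet.{0}) : ((ℕ → ZFSet.{0}) → Prop) → Prop
  | mem (i j : ℕ) : Dfn M (fun v => v i ∈ v j)
  | eq (i j : ℕ) : Dfn M (fun v => v i = v j)
  | not {R : (ℕ → ZFSet.{0}) → Prop} : Dfn M R → Dfn M (fun v => ¬ R v)
  | and {R S : (ℕ → ZFSet.{0}) → Prop} : Dfn M R → Dfn M S → Dfn M (fun v => R v ∧ S v)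
  | all (i : ℕ) {R : (ℕ → ZFSet.{0}) → Prop} :
      Dfn M R → Dfn M (fun v => ∀ a ∈ M, R (Function.update v i a))

/-- `M` is an inner model: a transitive class that contains all ordinals, with `(M, ∈) ⊨ ZF`
(extensionality, foundation and infinity follow). -/
structure IsInner (M : Set ZFSet.{0}) : Prop where
  trans : ∀ a ∈ M, ∀ b ∈ a, b ∈ M
  ord : ∀ α : Ordinal.{0}, α.toZFSet ∈ M
  pair : ∀ a ∈ M, ∀ b ∈ M, ({a, b} : ZFSet.{0}) ∈ M
  sUnion : ∀ a ∈ M, (ZFSet.sUnion a) ∈ M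
  power : ∀ a ∈ M, ∃ p ∈ M, ∀ b, b ∈ p ↔ b ∈ M ∧ b ⊆ a
  sep : ∀ R, Dfn M R → ∀ v : ℕ → ZFSet.{0}, (∀ i, v i ∈ M) → ∀ a ∈ M,
    ZFSet.sep (fun b => R (Function.update v 0 b)) a ∈ M
  coll : ∀ R, Dfn M R → ∀ v : ℕ → ZFSet.{0}, (∀ i, v i ∈ M) → ∀ a ∈ M,
    (∀ b ∈ a, ∃ c ∈ M, R (Function.update (Function.update v 0 b) 1 c)) →
    ∃ d ∈ M, ∀ b ∈ a, ∃ c ∈ d, R (Function.update (Function.update v 0 b) 1 c)

/-- `L(ℝ)`, the smallest inner model that contains all reals (subsets of `ω`). -/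
def LR : Set ZFSet.{0} :=
  {a | ∀ M, IsInner M → (∀ r : ZFSet.{0}, r ⊆ (ω : Ordinal.{0}).toZFSet → r ∈ M) → a ∈ M}

/-- The function `x ↾ ω₁ : ω₁ → ω₁` as a set (of ordered pairs). -/
noncomputable def graph (x : Ordinal.{0} → Ordinal.{0}) : ZFSet.{0} :=
  ZFSet.sep (fun p => ∃ β < ω₁, p = ZFSet.pair β.toZFSet (x β).toZFSet)
    (ZFSet.prod (ω₁ : Ordinal.{0}).toZFSet (ω₁ : Ordinal.{0}).toZFSet)

/-- The subset `{γ < ω₁ | A γ}` of `ω₁` as a set. -/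
noncomputable def subs (A : Ordinal.{0} → Prop) : ZFSet.{0} :=
  ZFSet.sep (fun p => ∃ β, A β ∧ p = β.toZFSet) (ω₁ : Ordinal.{0}).toZFSet

/-- `C` is a closed unbounded subset of `ω₁`. -/
def IsClubIn (C : Set Ordinal.{0}) : Prop :=
  (∀ γ ∈ C, γ < ω₁) ∧ (∀ β < ω₁, ∃ γ ∈ C, β < γ) ∧
    ∀ l < ω₁, Order.IsSuccLimit l → (∀ β < l, ∃ γ ∈ C, β < γ ∧ γ < l) → l ∈ C

end Pool.Agent.Helper66.PLR
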