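import Pool.Agent.Helper66.PLR.Defs

open Ordinal

namespace Pool.Agent.Helper66.PLR

/-- `T` is a nonempty `<ω₁`-closed subtree of `^{<ω₁}ω₁`, and `S` is a set of nodes of `T` (good
splitting nodes, `S γ s` for the node `(γ, s)`) such that
* every node of `T` extends to a node in `S`,
* a node of `T` whose length is a limit in `E` and which has cofinally many initial segments in `S`
  is in `S`,
* if `(γ, u)` and `(γ, v)` are in `S`, then some immediate successors `u ⌢ ξ`, `v ⌢ ζ` in `T` have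
  `ξ < ζ` and some have `ζ ≤ ξ`. -/
structure ContPerfect (E : Set Ordinal.{0}) (T : Set (Ordinal.{0} × (Ordinal.{0} → Ordinal.{0})))
    (S : Ordinal.{0} → (Ordinal.{0} → Ordinal.{0}) → Prop) : Prop where
  tree : ClosedTree T
  dense : ∀ p ∈ T, ∃ q ∈ T, p.1 ≤ q.1 ∧ cut q.2 p.1 = p.2 ∧ S q.1 q.2
  cont : ∀ l ∈ E, ∀ s : Ordinal.{0} → Ordinal.{0}, (l, s) ∈ T → Order.IsSuccLimit l →
    (∀ β < l, ∃ γ, β ≤ γ ∧ γ < l ∧ S γ (cut s γ)) → S l s
  both : ∀ (γ : Ordinal.{0}) (u v : Ordinal.{0} → Ordinal.{0}), (γ, u) ∈ T → (γ, v) ∈ T →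
    S γ u → S γ v →
    (∃ ξ ζ, (γ + 1, Function.update u γ ξ) ∈ T ∧ (γ + 1, Function.update v γ ζ) ∈ T ∧ ξ < ζ) ∧
    ∃ ξ ζ, (γ + 1, Function.update u γ ξ) ∈ T ∧ (γ + 1, Function.update v γ ζ) ∈ T ∧ ζ ≤ ξ

/-- The node `(α, s)` of `T` has the two immediate successors `s ⌢ 0` and `s ⌢ 1` in `T`. -/
def Splits2 (T : Set (Ordinal.{0} × (Ordinal.{0} → Ordinal.{0}))) (α : Ordinal.{0})
    (s : Ordinal.{0} → Ordinal.{0}) : Prop :=
  (α + 1, Function.update s α 0) ∈ T ∧ (α + 1, Function.update s α 1) ∈ T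

/-- Every node of `T` extends in `T` to a node in `S`, and limits of nodes in `S` whose length is
in `E` are in `S`. -/
def DenseAndContinuousOn (E : Set Ordinal.{0})
    (T : Set (Ordinal.{0} × (Ordinal.{0} → Ordinal.{0})))
    (S : Ordinal.{0} → (Ordinal.{0} → Ordinal.{0}) → Prop) : Prop :=
  (∀ p ∈ T, ∃ q ∈ T, p.1 ≤ q.1 ∧ cut q.2 p.1 = p.2 ∧ S q.1 q.2) ∧
  ∀ l ∈ E, ∀ s : Ordinal.{0} → Ordinal.{0}, (l, s) ∈ T → Order.IsSuccLimit l →
    (∀ β < l, ∃ γ, β ≤ γ ∧ γ < l ∧ S γ (cut s γ)) → S l s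

/-- First instance: splitting nodes `s` with `s ⌢ 0`, `s ⌢ 1` in `T` (for instance Kanamori's
perfect trees in `^{<ω₁}2`, if `E` contains all countable limit ordinals). -/
lemma contPerfect_binary {E : Set Ordinal.{0}}
    {T : Set (Ordinal.{0} × (Ordinal.{0} → Ordinal.{0}))} (hT : ClosedTree T)
    (h : DenseAndContinuousOn E T (Splits2 T)) : ContPerfect E T (Splits2 T) := by
  refine ⟨hT, h.1, h.2, fun γ u v _ _ hu hv => ⟨⟨0, 1, hu.1, hv.2, ?_⟩, 0, 0, hu.1, hv.1, le_rfl⟩⟩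
  exact zero_lt_one

/-- Second instance: `ω₁`-splitting nodes. -/
lemma contPerfect_omega_one {E : Set Ordinal.{0}}
    {T : Set (Ordinal.{0} × (Ordinal.{0} → Ordinal.{0}))} (hT : ClosedTree T)
    (h : DenseAndContinuousOn E T (Splits T)) : ContPerfect E T (Splits T) := by
  have h1 : ∀ a : Ordinal.{0}, a < ω₁ → a + 1 < ω₁ := fun a ha => by
    rw [← Cardinal.ord_aleph] at ha ⊢
    exact (Cardinal.isSuccLimit_ord (Cardinal.aleph0_le_aleph 1)).add_one_lt ha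
  refine ⟨hT, h.1, h.2, fun γ u v _ _ hu hv => ⟨?_, ?_⟩⟩
  · obtain ⟨ξ, _, hξ, hξT⟩ := hu 0 (Ordinal.omega_pos 1)
    obtain ⟨ζ, hζ, _, hζT⟩ := hv (ξ + 1) (h1 ξ hξ)
    exact ⟨ξ, ζ, hξT, hζT, Order.add_one_le_iff.1 hζ⟩
  · obtain ⟨ζ, _, hζ, hζT⟩ := hv 0 (Ordinal.omega_pos 1)
    obtain ⟨ξ, hξ, _, hξT⟩ := hu ζ hζ
    exact ⟨ξ, ζ, hξT, hζT, hξ⟩

/-- `E` is a stationary subset of `ω₁` (it meets every closed unbounded subset of `ω₁`). -/
def IsStat (E : Set Ordinal.{0}) : Prop := ∀ C, IsClubIn C → ∃ γ ∈ C, γ ∈ E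

end Pool.Agent.Helper66.PLR
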