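import Pool.Agent.Helper66.PLR.Defs

open Ordinal

namespace Pool.Agent.Helper66.PLR

variable {M : Set ZFSet.{0}}

/-- `R` is first order definable over `(M, ∈)` (on assignments into `M`). -/
def DD (M : Set ZFSet.{0}) (R : (ℕ → ZFSet.{0}) → Prop) : Prop :=
  ∃ R', Dfn M R' ∧ ∀ v : ℕ → ZFSet.{0}, (∀ i, v i ∈ M) → (R' v ↔ R v)

lemma DD.congr {R S : (ℕ → ZFSet.{0}) → Prop} (h : DD M R)
    (e : ∀ v : ℕ → ZFSet.{0}, (∀ i, v i ∈ M) → (R v ↔ S v)) : DD M S := by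
  obtain ⟨R', h1, h2⟩ := h
  exact ⟨R', h1, fun v hv => (h2 v hv).trans (e v hv)⟩

lemma DD.mem (i j : ℕ) : DD M (fun v => v i ∈ v j) := ⟨_, Dfn.mem i j, fun _ _ => Iff.rfl⟩

lemma DD.eq (i j : ℕ) : DD M (fun v => v i = v j) := ⟨_, Dfn.eq i j, fun _ _ => Iff.rfl⟩

lemma DD.not {R : (ℕ → ZFSet.{0}) → Prop} (h : DD M R) : DD M (fun v => ¬ R v) := by
  obtain ⟨R', h1, h2⟩ := h
  exact ⟨_, Dfn.not h1, fun v hv => not_congr (h2 v hv)⟩

lemma DD.and {R S : (ℕ → ZFSet.{0}) → Prop} (h : DD M R) (h' : DD M S) :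
    DD M (fun v => R v ∧ S v) := by
  obtain ⟨R', h1, h2⟩ := h
  obtain ⟨S', h3, h4⟩ := h'
  exact ⟨_, Dfn.and h1 h3, fun v hv => and_congr (h2 v hv) (h4 v hv)⟩

lemma DD.or {R S : (ℕ → ZFSet.{0}) → Prop} (h : DD M R) (h' : DD M S) :
    DD M (fun v => R v ∨ S v) :=
  (h.not.and h'.not).not.congr fun v _ => by tauto

lemma DD.imp {R S : (ℕ → ZFSet.{0}) → Prop} (h : DD M R) (h' : DD M S) :
    DD M (fun v => R v → S v) :=
  (h.and h'.not).not.congr fun v _ => by tauto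

lemma DD.iff {R S : (ℕ → ZFSet.{0}) → Prop} (h : DD M R) (h' : DD M S) :
    DD M (fun v => R v ↔ S v) :=
  ((h.imp h').and (h'.imp h)).congr fun v _ => by tauto

lemma upd_mem {v : ℕ → ZFSet.{0}} (hv : ∀ i, v i ∈ M) {a : ZFSet.{0}} (ha : a ∈ M) (i : ℕ) :
    ∀ j, Function.update v i a j ∈ M := by
  intro j
  by_cases h : j = i
  · rw [h, Function.update_self]; exact ha
  · rw [Function.update_of_ne h]; exact hv j

lemma DD.all (i : ℕ) {P : (ℕ → ZFSet.{0}) → ZFSet.{0} → Prop} (h : DD M (fun v => P v (v i)))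
    (hf : ∀ v a b, P (Function.update v i a) b ↔ P v b) : DD M (fun v => ∀ a ∈ M, P v a) := by
  obtain ⟨R', h1, h2⟩ := h
  refine ⟨_, Dfn.all i h1, fun v hv => ?_⟩
  refine forall_congr' fun a => forall_congr' fun ha => ?_
  rw [h2 _ (upd_mem hv ha i)]
  change P (Function.update v i a) (Function.update v i a i) ↔ P v a
  rw [hf, Function.update_self]

lemma DD.ex (i : ℕ) {P : (ℕ → ZFSet.{0}) → ZFSet.{0} → Prop} (h : DD M (fun v => P v (v i)))
    (hf : ∀ v a b, P (Function.update v i a) b ↔ P v b) : DD M (fun v => ∃ a ∈ M, P v a) := by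
  have := (DD.all i (P := fun v a => ¬ P v a) h.not (fun v a b => not_congr (hf v a b))).not
  refine this.congr fun v _ => ?_
  push Not
  rfl

lemma DD.ball (hM : IsInner M) (i j : ℕ) (hij : j ≠ i) {P : (ℕ → ZFSet.{0}) → ZFSet.{0} → Prop}
    (h : DD M (fun v => P v (v i))) (hf : ∀ v a b, P (Function.update v i a) b ↔ P v b) :
    DD M (fun v => ∀ a ∈ v j, P v a) := by
  refine (DD.all i (P := fun v a => a ∈ v j → P v a) ((DD.mem i j).imp h) ?_).congr fun v hv => ?_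
  · intro v a b
    rw [Function.update_of_ne hij, hf]
  · exact ⟨fun h a ha => h a (hM.trans _ (hv j) a ha) ha, fun h a _ ha => h a ha⟩

lemma DD.bex (hM : IsInner M) (i j : ℕ) (hij : j ≠ i) {P : (ℕ → ZFSet.{0}) → ZFSet.{0} → Prop}
    (h : DD M (fun v => P v (v i))) (hf : ∀ v a b, P (Function.update v i a) b ↔ P v b) :
    DD M (fun v => ∃ a ∈ v j, P v a) := by
  refine (DD.ex i (P := fun v a => a ∈ v j ∧ P v a) ((DD.mem i j).and h) ?_).congr fun v hv => ?_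
  · intro v a b
    rw [Function.update_of_ne hij, hf]
  · exact ⟨fun ⟨a, _, ha, h⟩ => ⟨a, ha, h⟩, fun ⟨a, ha, h⟩ => ⟨a, hM.trans _ (hv j) a ha, ha, h⟩⟩

lemma DD.upair (hM : IsInner M) (i j k : ℕ) : DD M (fun v => v i = {v j, v k}) := by
  have hfr : ∀ (v : ℕ → ZFSet.{0}) (a : ZFSet.{0}), Function.update v (i + j + k + 1) a i = v i ∧
      Function.update v (i + j + k + 1) a j = v j ∧
      Function.update v (i + j + k + 1) a k = v k := fun v a =>
    ⟨Function.update_of_ne (by omega) _ _, Function.update_of_ne (by omega) _ _,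
      Function.update_of_ne (by omega) _ _⟩
  refine (DD.all (i + j + k + 1) (P := fun v z => z ∈ v i ↔ (z = v j ∨ z = v k))
    ((DD.mem _ i).iff ((DD.eq _ j).or (DD.eq _ k))) ?_).congr fun v hv => ?_
  · intro v a b
    rw [(hfr v a).1, (hfr v a).2.1, (hfr v a).2.2]
  · constructor
    · intro h
      ext z
      rw [ZFSet.mem_pair]
      constructor
      · intro hz
        exact (h z (hM.trans _ (hv i) z hz)).1 hz
      · intro hz
        have hzM : z ∈ M := by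
          rcases hz with hz | hz
          · rw [hz]; exact hv j
          · rw [hz]; exact hv k
        exact (h z hzM).2 hz
    · intro h z _
      rw [h, ZFSet.mem_pair]

lemma pair_def (a b : ZFSet.{0}) : ZFSet.pair a b = {{a, a}, {a, b}} := by
  rw [ZFSet.pair]
  simp

lemma pair_memM (hM : IsInner M) {a b : ZFSet.{0}} (ha : a ∈ M) (hb : b ∈ M) :
    ZFSet.pair a b ∈ M := by
  rw [pair_def]
  exact hM.pair _ (hM.pair _ ha _ ha) _ (hM.pair _ ha _ hb)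

lemma DD.isPair (hM : IsInner M) (i j k : ℕ) : DD M (fun v => v i = ZFSet.pair (v j) (v k)) := by
  have hfr : ∀ (n : ℕ), i + j + k < n → ∀ (v : ℕ → ZFSet.{0}) (a : ZFSet.{0}),
      Function.update v n a i = v i ∧ Function.update v n a j = v j ∧
      Function.update v n a k = v k := fun n hn v a =>
    ⟨Function.update_of_ne (by omega) _ _, Function.update_of_ne (by omega) _ _,
      Function.update_of_ne (by omega) _ _⟩
  set n := i + j + k + 1 with hn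
  have h1 : DD M (fun v => v n = {v j, v j} ∧ v (n + 1) = {v j, v k} ∧ v i = {v n, v (n + 1)}) :=
    (DD.upair hM _ _ _).and ((DD.upair hM _ _ _).and (DD.upair hM _ _ _))
  have h2 : DD M (fun v => ∃ t ∈ M, v n = {v j, v j} ∧ t = {v j, v k} ∧ v i = {v n, t}) := by
    refine DD.ex (n + 1) (P := fun v t => v n = {v j, v j} ∧ t = {v j, v k} ∧ v i = {v n, t})
      h1 ?_
    intro v a b
    obtain ⟨e1, e2, e3⟩ := hfr (n + 1) (by omega) v a
    rw [e1, e2, e3, Function.update_of_ne (show n ≠ n + 1 by omega)]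
  have h3 : DD M (fun v => ∃ s ∈ M, ∃ t ∈ M, s = {v j, v j} ∧ t = {v j, v k} ∧ v i = {s, t}) := by
    refine DD.ex n (P := fun v s => ∃ t ∈ M, s = {v j, v j} ∧ t = {v j, v k} ∧ v i = {s, t})
      h2 ?_
    intro v a b
    obtain ⟨e1, e2, e3⟩ := hfr n (by omega) v a
    rw [e1, e2, e3]
  refine h3.congr fun v hv => ?_
  rw [pair_def]
  constructor
  · rintro ⟨s, _, t, _, rfl, rfl, h⟩
    exact h
  · intro h
    exact ⟨_, hM.pair _ (hv j) _ (hv j), _, hM.pair _ (hv j) _ (hv k), rfl, rfl, h⟩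

lemma DD.pairMem (hM : IsInner M) (j k i : ℕ) : DD M (fun v => ZFSet.pair (v j) (v k) ∈ v i) := by
  have hfr : ∀ (v : ℕ → ZFSet.{0}) (a : ZFSet.{0}), Function.update v (i + j + k + 1) a i = v i ∧
      Function.update v (i + j + k + 1) a j = v j ∧
      Function.update v (i + j + k + 1) a k = v k := fun v a =>
    ⟨Function.update_of_ne (by omega) _ _, Function.update_of_ne (by omega) _ _,
      Function.update_of_ne (by omega) _ _⟩
  refine (DD.ex (i + j + k + 1) (P := fun v p => p = ZFSet.pair (v j) (v k) ∧ p ∈ v i)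
    ((DD.isPair hM _ j k).and (DD.mem _ i)) ?_).congr fun v hv => ?_
  · intro v a b
    rw [(hfr v a).1, (hfr v a).2.1, (hfr v a).2.2]
  · constructor
    · rintro ⟨p, _, rfl, h⟩
      exact h
    · intro h
      exact ⟨_, pair_memM hM (hv j) (hv k), rfl, h⟩

/-- The assignment `v 0 = b` and `v (n + 1) = n`-th entry of `l`. -/
def asg (l : List ZFSet.{0}) (b : ZFSet.{0}) : ℕ → ZFSet.{0}
  | 0 => b
  | n + 1 => l.getD n ∅

lemma empty_memM (hM : IsInner M) : (∅ : ZFSet.{0}) ∈ M := by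
  have := hM.ord 0
  rwa [Ordinal.toZFSet_zero] at this

lemma sep_mem (hM : IsInner M) {R : (ℕ → ZFSet.{0}) → Prop} (hR : DD M R) (l : List ZFSet.{0})
    (hl : ∀ z ∈ l, z ∈ M) {a : ZFSet.{0}} (ha : a ∈ M) {P : ZFSet.{0} → Prop}
    (hP : ∀ b ∈ a, R (asg l b) ↔ P b) : ZFSet.sep P a ∈ M := by
  obtain ⟨R', h1, h2⟩ := hR
  have hasg : ∀ b ∈ M, ∀ i, asg l b i ∈ M := by
    intro b hb i
    cases i with
    | zero => exact hb
    | succ n =>
      change l.getD n ∅ ∈ M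
      by_cases hn : n < l.length
      · rw [List.getD_eq_getElem _ _ hn]
        exact hl _ (List.getElem_mem hn)
      · rw [List.getD_eq_default _ _ (not_lt.1 hn)]
        exact empty_memM hM
  have h3 := hM.sep R' h1 (asg l ∅) (hasg ∅ (empty_memM hM)) a ha
  have e : ∀ b, Function.update (asg l ∅) 0 b = asg l b := by
    intro b
    funext i
    cases i with
    | zero => rw [Function.update_self]; rfl
    | succ n => rw [Function.update_of_ne (Nat.succ_ne_zero n)]; rfl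
  convert h3 using 1
  ext z
  rw [ZFSet.mem_sep, ZFSet.mem_sep]
  refine and_congr_right fun hz => ?_
  rw [e, h2 _ (hasg z (hM.trans a ha z hz)), hP z hz]

lemma prod_mem (hM : IsInner M) {a b : ZFSet.{0}} (ha : a ∈ M) (hb : b ∈ M) :
    ZFSet.prod a b ∈ M := by
  have hu : a ∪ b ∈ M := by
    have := hM.sUnion _ (hM.pair a ha b hb)
    rwa [ZFSet.sUnion_pair] at this
  obtain ⟨p, hp, hp2⟩ := hM.power _ hu
  obtain ⟨q, hq, hq2⟩ := hM.power _ hp
  have hR : DD M (fun v => ∃ x ∈ v 1, ∃ y ∈ v 2, v 0 = ZFSet.pair x y) := by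
    refine DD.bex hM 10 1 (by decide) (P := fun v x => ∃ y ∈ v 2, v 0 = ZFSet.pair x y) ?_ ?_
    · refine DD.bex hM 11 2 (by decide) (P := fun v y => v 0 = ZFSet.pair (v 10) y) ?_ ?_
      · exact DD.isPair hM 0 10 11
      · intro v a b; simp
    · intro v a b; simp
  have := sep_mem hM hR [a, b] (by simp [ha, hb]) hq
    (P := fun z => ∃ x ∈ a, ∃ y ∈ b, z = ZFSet.pair x y) (fun z _ => Iff.rfl)
  convert this using 1
  ext z
  rw [ZFSet.mem_sep, ZFSet.mem_prod]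
  refine ⟨fun h => ⟨?_, h⟩, fun h => h.2⟩
  obtain ⟨x, hx, y, hy, rfl⟩ := h
  have hxM := hM.trans a ha x hx
  have hyM := hM.trans b hb y hy
  rw [hq2]
  refine ⟨pair_memM hM hxM hyM, ?_⟩
  intro s hs
  rw [pair_def, ZFSet.mem_pair] at hs
  rw [hp2]
  rcases hs with rfl | rfl
  · refine ⟨hM.pair _ hxM _ hxM, ?_⟩
    intro t ht
    rw [ZFSet.mem_pair] at ht
    rcases ht with rfl | rfl <;> exact ZFSet.mem_union.2 (Or.inl hx)
  · refine ⟨hM.pair _ hxM _ hyM, ?_⟩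
    intro t ht
    rw [ZFSet.mem_pair] at ht
    rcases ht with rfl | rfl
    · exact ZFSet.mem_union.2 (Or.inl hx)
    · exact ZFSet.mem_union.2 (Or.inr hy)

/-- back-and-forth condition for partial collapses -/
def Phi (M : Set ZFSet.{0}) (Dz Rz g : ZFSet.{0}) : Prop :=
  ∀ a ∈ M, ∀ b ∈ M, ZFSet.pair a b ∈ g →
    (∀ c ∈ Dz, ZFSet.pair c b ∈ Rz → ∃ d ∈ a, ZFSet.pair d c ∈ g) ∧
    ∀ d ∈ a, ∃ c ∈ Dz, ZFSet.pair c b ∈ Rz ∧ ZFSet.pair d c ∈ g

lemma DD.phi (hM : IsInner M) : DD M (fun v => Phi M (v 1) (v 2) (v 3)) := by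
  unfold Phi
  refine DD.all 10 (P := fun v a => ∀ b ∈ M, ZFSet.pair a b ∈ v 3 →
    (∀ c ∈ v 1, ZFSet.pair c b ∈ v 2 → ∃ d ∈ a, ZFSet.pair d c ∈ v 3) ∧
    ∀ d ∈ a, ∃ c ∈ v 1, ZFSet.pair c b ∈ v 2 ∧ ZFSet.pair d c ∈ v 3) ?_ ?_
  · refine DD.all 11 (P := fun v b => ZFSet.pair (v 10) b ∈ v 3 →
      (∀ c ∈ v 1, ZFSet.pair c b ∈ v 2 → ∃ d ∈ v 10, ZFSet.pair d c ∈ v 3) ∧
      ∀ d ∈ v 10, ∃ c ∈ v 1, ZFSet.pair c b ∈ v 2 ∧ ZFSet.pair d c ∈ v 3) ?_ ?_
    · refine (DD.pairMem hM 10 11 3).imp (DD.and ?_ ?_)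
      · refine DD.ball hM 12 1 (by decide) (P := fun v c => ZFSet.pair c (v 11) ∈ v 2 →
          ∃ d ∈ v 10, ZFSet.pair d c ∈ v 3) ?_ ?_
        · refine (DD.pairMem hM 12 11 2).imp ?_
          refine DD.bex hM 13 10 (by decide) (P := fun v d => ZFSet.pair d (v 12) ∈ v 3) ?_ ?_
          · exact DD.pairMem hM 13 12 3
          · intro v a b; simp
        · intro v a b; simp
      · refine DD.ball hM 12 10 (by decide) (P := fun v d => ∃ c ∈ v 1,
          ZFSet.pair c (v 11) ∈ v 2 ∧ ZFSet.pair d c ∈ v 3) ?_ ?_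
        · refine DD.bex hM 13 1 (by decide) (P := fun v c => ZFSet.pair c (v 11) ∈ v 2 ∧
            ZFSet.pair (v 12) c ∈ v 3) ?_ ?_
          · exact (DD.pairMem hM 13 11 2).and (DD.pairMem hM 12 13 3)
          · intro v a b; simp
        · intro v a b; simp
    · intro v a b; simp
  · intro v a b; simp

/-- The collapse of a well-founded relation of `M` is in `M`. -/
theorem collapse_mem (hM : IsInner M) {ι : Type*} (D : ι → Prop) (code : ι → ZFSet.{0})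
    (r : ι → ι → Prop) (hr : WellFounded r) (rk : ι → Ordinal.{0}) {Dz Rz : ZFSet.{0}}
    (hDz : Dz ∈ M) (hRz : Rz ∈ M) (hD : ∀ z, z ∈ Dz ↔ ∃ i, D i ∧ code i = z)
    (hR : ∀ i j, D i → D j → (ZFSet.pair (code j) (code i) ∈ Rz ↔ r j i))
    (hrk : ∀ i, D i → ∀ κ, κ < rk i ↔ ∃ j, D j ∧ r j i ∧ rk j = κ)
    (hω : ∀ i, D i → rk i < ω₁) :
    ∃ K ∈ M, ∀ z, z ∈ K ↔ ∃ i, D i ∧ z = ZFSet.pair (rk i).toZFSet (code i) := by
  have hcM : ∀ i, D i → code i ∈ M := fun i hi => hM.trans Dz hDz _ ((hD _).2 ⟨i, hi, rfl⟩)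
  -- uniqueness
  have cl1 : ∀ g, Phi M Dz Rz g → ∀ i, D i → ∀ a ∈ M, ZFSet.pair a (code i) ∈ g →
      a = (rk i).toZFSet := by
    intro g hg i
    induction i using hr.induction with
    | _ i ih =>
      intro hi a ha hag
      obtain ⟨h1, h2⟩ := hg a ha (code i) (hcM i hi) hag
      ext z
      constructor
      · intro hz
        obtain ⟨c, hc, hc2, hc3⟩ := h2 z hz
        obtain ⟨j, hj, rfl⟩ := (hD c).1 hc
        have hji := (hR i j hi hj).1 hc2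
        rw [ih j hji hj z (hM.trans a ha z hz) hc3, Ordinal.toZFSet_mem_toZFSet_iff]
        exact (hrk i hi _).2 ⟨j, hj, hji, rfl⟩
      · intro hz
        obtain ⟨κ, hκ, rfl⟩ := Ordinal.mem_toZFSet_iff.1 hz
        obtain ⟨j, hj, hji, rfl⟩ := (hrk i hi κ).1 hκ
        obtain ⟨d, hd, hd2⟩ := h1 (code j) ((hD _).2 ⟨j, hj, rfl⟩) ((hR i j hi hj).2 hji)
        rw [← ih j hji hj d (hM.trans a ha d hd) hd2]
        exact hd
  set W : ZFSet.{0} := (ω₁ : Ordinal.{0}).toZFSet with hW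
  have hWM : W ∈ M := hM.ord _
  set K : ZFSet.{0} := ZFSet.sep (fun p => ∃ g ∈ M, Phi M Dz Rz g ∧ p ∈ g) (ZFSet.prod W Dz) with hK
  have hKM : K ∈ M := by
    have hdd : DD M (fun v => ∃ g ∈ M, Phi M (v 1) (v 2) g ∧ v 0 ∈ g) := by
      refine DD.ex 3 (P := fun v g => Phi M (v 1) (v 2) g ∧ v 0 ∈ g) ?_ ?_
      · exact (DD.phi hM).and (DD.mem 0 3)
      · intro v a b; simp
    exact sep_mem hM hdd [Dz, Rz] (by simp [hDz, hRz]) (prod_mem hM hWM hDz) (fun b _ => Iff.rfl)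
  have hmemK : ∀ p, p ∈ K ↔ p ∈ ZFSet.prod W Dz ∧ ∃ g ∈ M, Phi M Dz Rz g ∧ p ∈ g := by
    intro p; rw [hK, ZFSet.mem_sep]
  have hKPhi : ∀ a ∈ M, ∀ b ∈ M, ZFSet.pair a b ∈ K →
      (∀ c ∈ Dz, ZFSet.pair c b ∈ Rz → ∃ d ∈ a, ZFSet.pair d c ∈ K) ∧
      ∀ d ∈ a, ∃ c ∈ Dz, ZFSet.pair c b ∈ Rz ∧ ZFSet.pair d c ∈ K := by
    intro a ha b hb hab
    obtain ⟨hab1, g, hg, hg2, hg3⟩ := (hmemK _).1 hab
    obtain ⟨haW, hbD⟩ := ZFSet.pair_mem_prod.1 hab1
    obtain ⟨h1, h2⟩ := hg2 a ha b hb hg3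
    have hdW : ∀ d ∈ a, d ∈ W := fun d hd =>
      (ZFSet.isOrdinal_toZFSet ω₁).mem_trans hd haW
    refine ⟨fun c hc hcb => ?_, fun d hd => ?_⟩
    · obtain ⟨d, hd, hd2⟩ := h1 c hc hcb
      exact ⟨d, hd, (hmemK _).2 ⟨ZFSet.pair_mem_prod.2 ⟨hdW d hd, hc⟩, g, hg, hg2, hd2⟩⟩
    · obtain ⟨c, hc, hc2, hc3⟩ := h2 d hd
      exact ⟨c, hc, hc2, (hmemK _).2 ⟨ZFSet.pair_mem_prod.2 ⟨hdW d hd, hc⟩, g, hg, hg2, hc3⟩⟩
  have hin : ∀ i, D i → ZFSet.pair (rk i).toZFSet (code i) ∈ ZFSet.prod W Dz := by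
    intro i hi
    refine ZFSet.pair_mem_prod.2 ⟨?_, (hD _).2 ⟨i, hi, rfl⟩⟩
    rw [hW, Ordinal.toZFSet_mem_toZFSet_iff]
    exact hω i hi
  have cl2 : ∀ i, D i → ZFSet.pair (rk i).toZFSet (code i) ∈ K := by
    intro i
    induction i using hr.induction with
    | _ i ih =>
      intro hi
      set q := ZFSet.pair (rk i).toZFSet (code i) with hq
      have hqM : q ∈ M := pair_memM hM (hM.ord _) (hcM i hi)
      set g : ZFSet.{0} := ZFSet.sep (fun p => p ∈ K ∨ p = q) (ZFSet.prod W Dz) with hg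
      have hgM : g ∈ M :=
        sep_mem hM (R := fun v => v 0 ∈ v 1 ∨ v 0 = v 2) ((DD.mem 0 1).or (DD.eq 0 2)) [K, q]
          (by simp [hKM, hqM]) (prod_mem hM hWM hDz) (fun b _ => Iff.rfl)
      have hmemg : ∀ p, p ∈ g ↔ p ∈ ZFSet.prod W Dz ∧ (p ∈ K ∨ p = q) := by
        intro p; rw [hg, ZFSet.mem_sep]
      have hKg : ∀ p, p ∈ K → p ∈ g := fun p hp => (hmemg p).2 ⟨((hmemK p).1 hp).1, Or.inl hp⟩
      refine (hmemK _).2 ⟨hin i hi, g, hgM, ?_, (hmemg _).2 ⟨hin i hi, Or.inr rfl⟩⟩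
      intro a ha b hb hab
      rcases ((hmemg _).1 hab).2 with h | h
      · obtain ⟨h1, h2⟩ := hKPhi a ha b hb h
        refine ⟨fun c hc hcb => ?_, fun d hd => ?_⟩
        · obtain ⟨d, hd, hd2⟩ := h1 c hc hcb
          exact ⟨d, hd, hKg _ hd2⟩
        · obtain ⟨c, hc, hc2, hc3⟩ := h2 d hd
          exact ⟨c, hc, hc2, hKg _ hc3⟩
      · rw [hq, ZFSet.pair_inj] at h
        obtain ⟨rfl, rfl⟩ := h
        refine ⟨fun c hc hcb => ?_, fun d hd => ?_⟩
        · obtain ⟨j, hj, rfl⟩ := (hD c).1 hc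
          have hji := (hR i j hi hj).1 hcb
          refine ⟨(rk j).toZFSet, ?_, hKg _ (ih j hji hj)⟩
          rw [Ordinal.toZFSet_mem_toZFSet_iff]
          exact (hrk i hi _).2 ⟨j, hj, hji, rfl⟩
        · obtain ⟨κ, hκ, rfl⟩ := Ordinal.mem_toZFSet_iff.1 hd
          obtain ⟨j, hj, hji, rfl⟩ := (hrk i hi κ).1 hκ
          exact ⟨code j, (hD _).2 ⟨j, hj, rfl⟩, (hR i j hi hj).2 hji, hKg _ (ih j hji hj)⟩
  refine ⟨K, hKM, fun z => ⟨fun hz => ?_, ?_⟩⟩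
  · obtain ⟨hz1, g, _, hg2, hg3⟩ := (hmemK z).1 hz
    obtain ⟨a, ha, b, hb, rfl⟩ := ZFSet.mem_prod.1 hz1
    obtain ⟨i, hi, rfl⟩ := (hD b).1 hb
    exact ⟨i, hi, by rw [cl1 g hg2 i hi a (hM.trans W hWM a ha) hg3]⟩
  · rintro ⟨i, hi, rfl⟩
    exact cl2 i hi

end Pool.Agent.Helper66.PLR
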