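import Pool.Agent.Helper66.PLR.Decode

open Ordinal

namespace Pool.Agent.Helper66.PLR

variable {T : Set (Ordinal.{0} × (Ordinal.{0} → Ordinal.{0}))}

/-- the function `α ↦ α + 1` on `ω₁` -/
noncomputable def sc : Ordinal.{0} → Ordinal.{0} := cut (fun α => α + 1) ω₁

lemma isPt_sc : IsPt sc :=
  ⟨fun β hβ => by unfold sc; rw [cut_lt hβ]; exact add_one_lt_omega_one hβ, fun _ hβ => cut_ge hβ⟩

/-- The function `α ↦ α + 1` is in every inner model. -/
lemma graph_sc_mem {M : Set ZFSet.{0}} (hM : IsInner M) : graph sc ∈ M := by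
  set W : ZFSet.{0} := (ω₁ : Ordinal.{0}).toZFSet with hW
  have hWM : W ∈ M := hM.ord _
  have hfin : ZFSet.sep (fun p => ∃ a ∈ W, ∃ b ∈ W, p = ZFSet.pair a b ∧ a ∈ b ∧
      ∀ z ∈ b, z ∈ a ∨ z = a) (ZFSet.prod W W) ∈ M := by
    have hdd : DD M (fun v => ∃ a ∈ v 1, ∃ b ∈ v 1, v 0 = ZFSet.pair a b ∧ a ∈ b ∧
        ∀ z ∈ b, z ∈ a ∨ z = a) := by
      refine DD.bex hM 10 1 (by decide) (P := fun v a => ∃ b ∈ v 1, v 0 = ZFSet.pair a b ∧ a ∈ b ∧
        ∀ z ∈ b, z ∈ a ∨ z = a) ?_ ?_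
      swap
      · intro v a b; simp
      refine DD.bex hM 11 1 (by decide) (P := fun v b => v 0 = ZFSet.pair (v 10) b ∧ v 10 ∈ b ∧
        ∀ z ∈ b, z ∈ v 10 ∨ z = v 10) ?_ ?_
      swap
      · intro v a b; simp
      refine (DD.isPair hM 0 10 11).and ((DD.mem 10 11).and ?_)
      refine DD.ball hM 12 11 (by decide) (P := fun v z => z ∈ v 10 ∨ z = v 10) ?_ ?_
      · exact (DD.mem 12 10).or (DD.eq 12 10)
      · intro v a b; simp
    exact sep_mem hM hdd [W] (by simp [hWM]) (prod_mem hM hWM hWM) (fun b _ => Iff.rfl)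
  convert hfin using 1
  ext z
  rw [mem_graph isPt_sc, ZFSet.mem_sep]
  constructor
  · rintro ⟨β, hβ, rfl⟩
    have h1 : sc β = β + 1 := cut_lt hβ
    have h2 : (sc β).toZFSet ∈ W := Ordinal.toZFSet_mem_toZFSet_iff.2 (isPt_sc.1 β hβ)
    have h3 : β.toZFSet ∈ W := Ordinal.toZFSet_mem_toZFSet_iff.2 hβ
    refine ⟨ZFSet.pair_mem_prod.2 ⟨h3, h2⟩, _, h3, _, h2, rfl, ?_, ?_⟩
    · rw [Ordinal.toZFSet_mem_toZFSet_iff, h1]
      exact Order.lt_add_one_iff.2 le_rfl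
    · intro z hz
      obtain ⟨γ, hγ, rfl⟩ := Ordinal.mem_toZFSet_iff.1 hz
      rw [h1, Order.lt_add_one_iff] at hγ
      rcases hγ.lt_or_eq with h | h
      · exact Or.inl (Ordinal.toZFSet_mem_toZFSet_iff.2 h)
      · exact Or.inr (by rw [h])
  · rintro ⟨_, a, ha, b, hb, rfl, hab, hz⟩
    obtain ⟨α, hα, rfl⟩ := Ordinal.mem_toZFSet_iff.1 ha
    obtain ⟨β, hβ, rfl⟩ := Ordinal.mem_toZFSet_iff.1 hb
    refine ⟨α, hα, ?_⟩
    have h1 : sc α = α + 1 := cut_lt hα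
    rw [h1]
    have h2 : β = α + 1 := by
      apply le_antisymm
      · by_contra hlt
        rw [not_le] at hlt
        rcases hz (α + 1).toZFSet (Ordinal.toZFSet_mem_toZFSet_iff.2 hlt) with h | h
        · rw [Ordinal.toZFSet_mem_toZFSet_iff] at h
          exact absurd h (not_lt.2 (Order.lt_add_one_iff.2 le_rfl).le)
        · have := Ordinal.toZFSet_injective h
          exact absurd this (Order.lt_add_one_iff.2 le_rfl).ne'
      · exact Order.add_one_le_iff.2 (Ordinal.toZFSet_mem_toZFSet_iff.1 hab)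
    rw [h2]

/-- The usual `ω₁`-Miller trees, in which limits of `ω₁`-splitting nodes are `ω₁`-splitting, are
the Miller trees with delay `α ↦ α + 1`. -/
lemma miller_of_continuous (hT : ClosedTree T)
    (hd : ∀ p ∈ T, ∃ q ∈ T, p.1 ≤ q.1 ∧ cut q.2 p.1 = p.2 ∧ Splits T q.1 q.2)
    (hc : ∀ (l : Ordinal.{0}) (s : Ordinal.{0} → Ordinal.{0}), (l, s) ∈ T →
      Order.IsSuccLimit l → (∀ β < l, ∃ γ, β ≤ γ ∧ γ < l ∧ Splits T γ (cut s γ)) →
      Splits T l s) : IsMiller sc T := by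
  refine ⟨hT, hd, fun l s hl hlim _ hs => ⟨(l, s), hl, le_rfl, ?_, ?_, hc l s hl hlim hs, ?_⟩⟩
  · have h1 : l < ω₁ := (hT.node _ hl).1
    have h2 : sc l = l + 1 := cut_lt h1
    rw [h2]
    exact Order.lt_add_one_iff.2 le_rfl
  · exact cut_self (hT.node _ hl).2.2
  · intro β h1 h2
    exact absurd (lt_of_le_of_lt h1 h2) (lt_irrefl _)

/-- The full tree `^{<ω₁}ω₁` is a Miller tree. -/
lemma full_isMiller : IsMiller sc {p : Ordinal.{0} × (Ordinal.{0} → Ordinal.{0}) | IsNode p} := by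
  have hsp : ∀ p : Ordinal.{0} × (Ordinal.{0} → Ordinal.{0}), IsNode p →
      Splits {p : Ordinal.{0} × (Ordinal.{0} → Ordinal.{0}) | IsNode p} p.1 p.2 := by
    intro p hp ξ hξ
    refine ⟨ξ, le_rfl, hξ, add_one_lt_omega_one hp.1, ?_, ?_⟩
    · intro β hβ
      change Function.update p.2 p.1 ξ β < ω₁
      by_cases h : β = p.1
      · rw [h, Function.update_self]; exact hξ
      · rw [Function.update_of_ne h]
        exact hp.2.1 β (lt_of_le_of_ne (Order.lt_add_one_iff.1 hβ) h)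
    · intro β hβ
      change Function.update p.2 p.1 ξ β = 0
      have h1 : p.1 < β := (Order.lt_add_one_iff.2 le_rfl).trans_le hβ
      rw [Function.update_of_ne h1.ne']
      exact hp.2.2 β h1.le
  refine miller_of_continuous ⟨⟨(0, fun _ => 0), Ordinal.omega_pos 1,
    fun _ _ => Ordinal.omega_pos 1, fun _ _ => rfl⟩, fun p hp => hp, ?_, ?_⟩ ?_ ?_
  · intro p hp β hβ
    refine ⟨lt_of_le_of_lt hβ hp.1, fun γ hγ => ?_, fun γ hγ => cut_ge hγ⟩
    change cut p.2 β γ < ω₁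
    rw [cut_lt hγ]
    exact hp.2.1 γ (lt_of_lt_of_le hγ hβ)
  · intro l s hl hlim hs h
    refine ⟨hl, fun β hβ => ?_, hs⟩
    have h1 := (h (β + 1) (hlim.add_one_lt hβ)).2.1 β (Order.lt_add_one_iff.2 le_rfl)
    change cut s (β + 1) β < ω₁ at h1
    rwa [cut_lt (Order.lt_add_one_iff.2 le_rfl)] at h1
  · intro p hp
    exact ⟨p, hp, le_rfl, cut_self hp.2.2, hsp p hp⟩
  · intro l s hls _ _
    exact hsp _ hls

/-- Subsets of `ω₁` in an inner model from a Miller tree. -/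
theorem subs_mem {M : Set ZFSet.{0}} (hM : IsInner M) {h : Ordinal.{0} → Ordinal.{0}}
    (hh : IsPt h) (hhM : graph h ∈ M) (hT : IsMiller h T)
    (hx : ∀ x ∈ branches T, graph x ∈ M) (A : Ordinal.{0} → Prop) : subs A ∈ M := by
  obtain ⟨δ₀, hδ, x, hx', y, hy', hb⟩ := exists_pair hh hT A
  exact decode hM hh hx'.1 hy'.1 hhM (hx x hx') (hx y hy') hδ hb

theorem miller_inner {M : Set ZFSet.{0}} (hM : IsInner M) {h : Ordinal.{0} → Ordinal.{0}}
    (hh : IsPt h) (hhM : graph h ∈ M) (hT : IsMiller h T)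
    (hx : ∀ x ∈ branches T, graph x ∈ M) {x : Ordinal.{0} → Ordinal.{0}} (hxp : IsPt x) :
    graph x ∈ M :=
  graph_mem_of_subs hM (subs_mem hM hh hhM hT hx) hxp

end Pool.Agent.Helper66.PLR
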