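import Pool.Agent.Helper66.PLR.Block

open Ordinal

namespace Pool.Agent.Helper66.PLR

section rank

variable {α : Type*} {r : α → α → Prop}

/-- The rank function of a well-founded relation, with values in `Ordinal.{0}`. -/
noncomputable def rkr (hr : WellFounded r) : α → Ordinal.{0} :=
  hr.fix fun a ih => ⨆ b : {b // r b a}, (ih b.1 b.2 + 1)

lemma rkr_eq (hr : WellFounded r) (a : α) : rkr hr a = ⨆ b : {b // r b a}, (rkr hr b.1 + 1) := by
  unfold rkr
  rw [hr.fix_eq]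

lemma rkr_lt_omega (hr : WellFounded r) {D : α → Prop} (hD : ∀ a, D a → ∀ b, r b a → D b)
    (hc : ∀ a, D a → Countable {b // r b a}) : ∀ a, D a → rkr hr a < ω₁ := by
  intro a
  induction a using hr.induction with
  | _ a ih =>
    intro ha
    rw [rkr_eq]
    have := hc a ha
    exact Ordinal.iSup_lt_omega_one (fun i => add_one_lt_omega_one (ih i.1 i.2 (hD a ha _ i.2)))

lemma rkr_bdd (hr : WellFounded r) {D : α → Prop} (hD : ∀ a, D a → ∀ b, r b a → D b)
    (hc : ∀ a, D a → Countable {b // r b a}) {a : α} (ha : D a) :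
    BddAbove (Set.range fun b : {b // r b a} => rkr hr b.1 + 1) := by
  refine ⟨ω₁, ?_⟩
  rintro _ ⟨i, rfl⟩
  exact (add_one_lt_omega_one (rkr_lt_omega hr hD hc _ (hD a ha _ i.2))).le

lemma rkr_lt (hr : WellFounded r) {D : α → Prop} (hD : ∀ a, D a → ∀ b, r b a → D b)
    (hc : ∀ a, D a → Countable {b // r b a}) {a b : α} (ha : D a) (hb : r b a) :
    rkr hr b < rkr hr a := by
  rw [rkr_eq hr a]
  refine lt_of_lt_of_le (Order.lt_add_one_iff.2 le_rfl) ?_
  exact le_ciSup (rkr_bdd hr hD hc ha) (⟨b, hb⟩ : {b // r b a})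

lemma exists_rkr_eq (hr : WellFounded r) {D : α → Prop} (hD : ∀ a, D a → ∀ b, r b a → D b)
    (hc : ∀ a, D a → Countable {b // r b a}) (htr : ∀ a b c, r a b → r b c → r a c) :
    ∀ a, D a → ∀ κ, κ < rkr hr a → ∃ b, r b a ∧ rkr hr b = κ := by
  intro a
  induction a using hr.induction with
  | _ a ih =>
    intro ha κ hκ
    rw [rkr_eq] at hκ
    have hne : Nonempty {b // r b a} := by
      by_contra hne
      rw [not_nonempty_iff] at hne
      rw [ciSup_of_empty] at hκ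
      simp at hκ
    obtain ⟨⟨b, hb⟩, hlt⟩ := (lt_ciSup_iff (rkr_bdd hr hD hc ha)).1 hκ
    rw [Order.lt_add_one_iff] at hlt
    rcases hlt.eq_or_lt with h | h
    · exact ⟨b, hb, h.symm⟩
    · obtain ⟨c, hc1, hc2⟩ := ih b hb (hD a ha b hb) κ h
      exact ⟨c, htr _ _ _ hc1 hb, hc2⟩

end rank

/-- the relation `b ∈ C ∧ b < a` -/
def rC (C : Ordinal.{0} → Prop) (b a : Ordinal.{0}) : Prop := C b ∧ b < a

lemma wf_rC (C : Ordinal.{0} → Prop) : WellFounded (rC C) :=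
  Subrelation.wf (fun {_ _} h => h.2) (lt_wf : WellFounded ((· < ·) : Ordinal.{0} → Ordinal.{0} → Prop))

/-- the order type of `{b ∈ C | b < γ}` -/
noncomputable def rk (C : Ordinal.{0} → Prop) : Ordinal.{0} → Ordinal.{0} := rkr (wf_rC C)

lemma rk_congr {C C' : Ordinal.{0} → Prop} {γ : Ordinal.{0}} (h : ∀ b < γ, C b ↔ C' b) :
    rk C γ = rk C' γ := by
  induction γ using WellFoundedLT.induction with
  | _ γ ih =>
    unfold rk
    rw [rkr_eq, rkr_eq]
    have e : ∀ b, rC C b γ ↔ rC C' b γ := fun b => by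
      unfold rC
      constructor
      · rintro ⟨h1, h2⟩; exact ⟨(h b h2).1 h1, h2⟩
      · rintro ⟨h1, h2⟩; exact ⟨(h b h2).2 h1, h2⟩
    apply Equiv.iSup_congr (Equiv.subtypeEquivRight e)
    rintro ⟨b, hb⟩
    have := ih b hb.2 (fun c hc => h c (hc.trans hb.2))
    unfold rk at this
    simp [this]

lemma rC_down (C : Ordinal.{0} → Prop) : ∀ a, a < ω₁ → ∀ b, rC C b a → b < ω₁ :=
  fun _ ha _ hb => hb.2.trans ha

lemma rC_countable (C : Ordinal.{0} → Prop) : ∀ a, a < ω₁ → Countable {b // rC C b a} := by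
  intro a ha
  have := countable_Iio ha
  exact Function.Injective.countable (f := fun b : {b // rC C b a} => (⟨b.1, b.2.2⟩ : Set.Iio a))
    (fun b c h => Subtype.ext (congrArg (fun z : Set.Iio a => z.1) h))

lemma rk_lt {C : Ordinal.{0} → Prop} {a b : Ordinal.{0}} (ha : a < ω₁) (hb : C b) (hba : b < a) :
    rk C b < rk C a :=
  rkr_lt (wf_rC C) (D := fun a => a < ω₁) (rC_down C) (rC_countable C) ha ⟨hb, hba⟩

lemma rk_lt_omega {C : Ordinal.{0} → Prop} {a : Ordinal.{0}} (ha : a < ω₁) : rk C a < ω₁ :=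
  rkr_lt_omega (wf_rC C) (D := fun a => a < ω₁) (rC_down C) (rC_countable C) a ha

lemma exists_rk_eq {C : Ordinal.{0} → Prop} {a κ : Ordinal.{0}} (ha : a < ω₁) (hκ : κ < rk C a) :
    ∃ b, C b ∧ b < a ∧ rk C b = κ := by
  obtain ⟨b, hb, h⟩ := exists_rkr_eq (wf_rC C) (D := fun a => a < ω₁) (rC_down C) (rC_countable C)
    (fun a b c h h' => ⟨h.1, h.2.trans h'.2⟩) a ha κ hκ
  exact ⟨b, hb.1, hb.2, h⟩

lemma rk_mono {C : Ordinal.{0} → Prop} {a b : Ordinal.{0}} (hb : b < ω₁) (hab : a ≤ b) :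
    rk C a ≤ rk C b := by
  unfold rk
  rw [rkr_eq (wf_rC C) a]
  apply ciSup_le'
  rintro ⟨c, hc⟩
  rw [Order.add_one_le_iff]
  exact rk_lt hb hc.1 (hc.2.trans_le hab)

/-- An unbounded subset of `ω₁` has order type `ω₁`. -/
lemma rk_surj {C : Ordinal.{0} → Prop} (hC1 : ∀ γ, C γ → γ < ω₁)
    (hC : ∀ β < ω₁, ∃ γ, C γ ∧ β < γ) : ∀ κ < ω₁, ∃ γ, C γ ∧ rk C γ = κ := by
  have key : ∀ κ < ω₁, ∃ γ < ω₁, κ < rk C γ := by
    intro κ
    induction κ using WellFoundedLT.induction with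
    | _ κ ih =>
      intro hκ
      choose! g hg1 hg2 using ih
      have := countable_Iio hκ
      have hs : (⨆ b : Set.Iio κ, g b) < ω₁ :=
        Ordinal.iSup_lt_omega_one (fun i => hg1 i i.2 (i.2.trans hκ))
      have hb : BddAbove (Set.range fun b : Set.Iio κ => g b) :=
        ⟨ω₁, by rintro _ ⟨i, rfl⟩; exact (hg1 i i.2 (i.2.trans hκ)).le⟩
      obtain ⟨c, hc, hc'⟩ := hC _ hs
      obtain ⟨d, hd, hd'⟩ := hC _ (hC1 c hc)
      refine ⟨d, hC1 d hd, lt_of_le_of_lt ?_ (rk_lt (hC1 d hd) hc hd')⟩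
      by_contra hlt
      rw [not_le] at hlt
      have h1 := hg2 _ hlt (hlt.trans hκ)
      have h2 : g (rk C c) ≤ c := (le_ciSup hb ⟨rk C c, hlt⟩).trans hc'.le
      exact absurd (h1.trans_le (rk_mono (hC1 c hc) h2)) (lt_irrefl _)
  intro κ hκ
  obtain ⟨γ, hγ, h⟩ := key κ hκ
  obtain ⟨b, hb, _, h'⟩ := exists_rk_eq hγ h
  exact ⟨b, hb, h'⟩

end Pool.Agent.Helper66.PLR
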